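import Pool.Agent.W821.TB.Base

set_option autoImplicit false

namespace Pool.Agent.W821.TB

open Complex Finset Filter Topology ComplexConjugate

variable {n : ℕ} {m : Fin n → ℝ}

/-- Angular momentum. -/
noncomputable def ang (m : Fin n → ℝ) (z : Ph n) : ℝ := ∑ a, m a * (conj (z.1 a) * z.2 a).im

/-- Moment of inertia. -/
noncomputable def mom (m : Fin n → ℝ) (z : Ph n) : ℝ := ∑ a, m a * normSq (z.1 a)

theorem torque_zero (q : Fin n → ℂ) : ∑ a, m a * (conj (q a) * acc m q a).im = 0 := by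
  have h1 : ∀ a, m a * (conj (q a) * acc m q a).im =
      ∑ b, (m a * m b / ‖q b - q a‖ ^ 3) * (conj (q a) * q b).im := by
    intro a
    unfold acc
    rw [← Finset.add_sum_erase univ (fun b => (m a * m b / ‖q b - q a‖ ^ 3) * (conj (q a) * q b).im)
      (Finset.mem_univ a), Finset.mul_sum, Complex.im_sum, Finset.mul_sum]
    have h0 : (m a * m a / ‖q a - q a‖ ^ 3) * (conj (q a) * q a).im = 0 := by simp
    rw [h0, zero_add]
    refine Finset.sum_congr rfl fun b _ => ?_
    have : (conj (q a) * (((m b / ‖q b - q a‖ ^ 3 : ℝ) : ℂ) * (q b - q a))).im =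
        (m b / ‖q b - q a‖ ^ 3) * (conj (q a) * q b).im := by
      simp only [Complex.mul_im, Complex.mul_re, Complex.conj_re, Complex.conj_im, Complex.ofReal_re,
        Complex.ofReal_im, Complex.sub_re, Complex.sub_im]
      ring
    rw [this]; ring
  rw [Finset.sum_congr rfl fun a _ => h1 a]
  have h2 : ∑ a, ∑ b, (m a * m b / ‖q b - q a‖ ^ 3) * (conj (q a) * q b).im =
      -∑ a, ∑ b, (m a * m b / ‖q b - q a‖ ^ 3) * (conj (q a) * q b).im := by
    conv_lhs => rw [Finset.sum_comm]
    rw [← Finset.sum_neg_distrib]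
    refine Finset.sum_congr rfl fun a _ => ?_
    rw [← Finset.sum_neg_distrib]
    refine Finset.sum_congr rfl fun b _ => ?_
    rw [norm_sub_rev (q a) (q b)]
    have : (conj (q b) * q a).im = -(conj (q a) * q b).im := by
      simp only [Complex.mul_im, Complex.conj_re, Complex.conj_im]; ring
    rw [this]; ring
  linarith

theorem hasDerivAt_conj {f : ℝ → ℂ} {f' : ℂ} {t : ℝ} (h : HasDerivAt f f' t) :
    HasDerivAt (fun s => conj (f s)) (conj f') t := by
  have := (Complex.conjCLE.hasFDerivAt (x := f t)).comp_hasDerivAt t h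
  exact this

theorem hasDerivAt_imc {f : ℝ → ℂ} {f' : ℂ} {t : ℝ} (h : HasDerivAt f f' t) :
    HasDerivAt (fun s => (f s).im) f'.im t := by
  have := (Complex.imCLM.hasFDerivAt (x := f t)).comp_hasDerivAt t h
  exact this

theorem hasDerivAt_rec {f : ℝ → ℂ} {f' : ℂ} {t : ℝ} (h : HasDerivAt f f' t) :
    HasDerivAt (fun s => (f s).re) f'.re t := by
  have := (Complex.reCLM.hasFDerivAt (x := f t)).comp_hasDerivAt t h
  exact this

theorem hasDerivAt_ang {x : ℝ → Ph n} (hx : IsSol m Set.univ x) (t : ℝ) :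
    HasDerivAt (fun s => ang m (x s)) 0 t := by
  unfold ang
  have h : ∀ a, HasDerivAt (fun s => m a * (conj ((x s).1 a) * (x s).2 a).im)
      (m a * (conj ((x t).2 a) * (x t).2 a + conj ((x t).1 a) * acc m (x t).1 a).im) t := fun a =>
    (hasDerivAt_imc ((hasDerivAt_conj (hasDerivAt_pos hx t a)).mul (hasDerivAt_vel hx t a))).const_mul _
  have h2 := HasDerivAt.fun_sum (u := univ) (fun a _ => h a)
  refine h2.congr_deriv ?_
  have h3 := torque_zero (m := m) (x t).1
  rw [← h3]
  refine Finset.sum_congr rfl fun a _ => ?_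
  rw [Complex.add_im]
  have : (conj ((x t).2 a) * (x t).2 a).im = 0 := by
    simp only [Complex.mul_im, Complex.conj_re, Complex.conj_im]; ring
  rw [this, zero_add]

theorem ang_const {x : ℝ → Ph n} (hx : IsSol m Set.univ x) (t s : ℝ) :
    ang m (x t) = ang m (x s) :=
  is_const_of_deriv_eq_zero (f := fun s => ang m (x s))
    (fun u => (hasDerivAt_ang hx u).differentiableAt) (fun u => (hasDerivAt_ang hx u).deriv) t s

theorem mom_pos (hn : 2 ≤ n) (hm : ∀ a, 0 < m a) {z : Ph n} (hz : z ∈ phaseSpace m) : 0 < mom m z := by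
  unfold mom
  have hne : z.1 ⟨0, by omega⟩ ≠ z.1 ⟨1, by omega⟩ := hz.1 _ _ (by simp)
  obtain ⟨a, ha⟩ : ∃ a, z.1 a ≠ 0 := by
    by_contra hcon
    push Not at hcon
    exact hne (by rw [hcon, hcon])
  exact Finset.sum_pos' (fun b _ => mul_nonneg (hm b).le (normSq_nonneg _))
    ⟨a, Finset.mem_univ a, mul_pos (hm a) (normSq_pos.2 ha)⟩

theorem acc_conj (w : ℂ) (hw : ‖w‖ = 1) (q : Fin n → ℂ) (a : Fin n) :
    acc m (fun b => w * conj (q b)) a = w * conj (acc m q a) := by
  unfold acc
  rw [map_sum, Finset.mul_sum]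
  refine Finset.sum_congr rfl fun b _ => ?_
  have h1 : w * conj (q b) - w * conj (q a) = w * conj (q b - q a) := by
    rw [map_sub]; ring
  rw [h1, norm_mul, hw, one_mul, Complex.norm_conj, map_mul, Complex.conj_ofReal]; ring

end Pool.Agent.W821.TB
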