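import Mathlib

set_option autoImplicit false

namespace Pool.Agent.W821.TB

open Complex Finset Filter Topology

/-- Phase points of `n` bodies in the plane `ℂ`: positions and velocities. -/
abbrev Ph (n : ℕ) := (Fin n → ℂ) × (Fin n → ℂ)

/-- Newtonian acceleration of body `a`. -/
noncomputable def acc {n : ℕ} (m : Fin n → ℝ) (q : Fin n → ℂ) (a : Fin n) : ℂ :=
  ∑ b ∈ univ.erase a, ((m b / ‖q b - q a‖ ^ 3 : ℝ) : ℂ) * (q b - q a)

/-- The phase space in the centre of mass frame: no collisions, centre of mass at rest at `0`. -/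
def phaseSpace {n : ℕ} (m : Fin n → ℝ) : Set (Ph n) :=
  {z | (∀ a b, a ≠ b → z.1 a ≠ z.1 b) ∧ ∑ a, (m a : ℂ) * z.1 a = 0 ∧ ∑ a, (m a : ℂ) * z.2 a = 0}

/-- `x` solves Newton's equations on the time set `J`, in the centre of mass frame. -/
def IsSol {n : ℕ} (m : Fin n → ℝ) (J : Set ℝ) (x : ℝ → Ph n) : Prop :=
  ∀ t ∈ J, x t ∈ phaseSpace m ∧ HasDerivWithinAt x ((x t).2, acc m (x t).1) J t

variable {n : ℕ} {m : Fin n → ℝ}

theorem IsSol.hasDerivAt {x : ℝ → Ph n} (hx : IsSol m Set.univ x) (t : ℝ) :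
    HasDerivAt x ((x t).2, acc m (x t).1) t :=
  hasDerivWithinAt_univ.1 (hx t (Set.mem_univ t)).2

theorem IsSol.mem {x : ℝ → Ph n} (hx : IsSol m Set.univ x) (t : ℝ) : x t ∈ phaseSpace m :=
  (hx t (Set.mem_univ t)).1

theorem isSol_of {x : ℝ → Ph n} (h1 : ∀ t, x t ∈ phaseSpace m)
    (h2 : ∀ t, HasDerivAt x ((x t).2, acc m (x t).1) t) : IsSol m Set.univ x :=
  fun t _ => ⟨h1 t, (h2 t).hasDerivWithinAt⟩

theorem IsSol.continuous {x : ℝ → Ph n} (hx : IsSol m Set.univ x) : Continuous x :=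
  continuous_iff_continuousAt.2 fun t => (hx.hasDerivAt t).continuousAt

theorem IsSol.restrict {x : ℝ → Ph n} (hx : IsSol m Set.univ x) (J : Set ℝ) : IsSol m J x :=
  fun t _ => ⟨hx.mem t, (hx.hasDerivAt t).hasDerivWithinAt⟩

theorem hasDerivAt_pos {x : ℝ → Ph n} (hx : IsSol m Set.univ x) (t : ℝ) (a : Fin n) :
    HasDerivAt (fun s => (x s).1 a) ((x t).2 a) t := by
  have h := (hx.hasDerivAt t)
  have h1 := h.hasFDerivAt.fst.hasDerivAt
  have h2 := (hasDerivAt_pi.1 (by simpa using h1)) a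
  simpa using h2

theorem hasDerivAt_vel {x : ℝ → Ph n} (hx : IsSol m Set.univ x) (t : ℝ) (a : Fin n) :
    HasDerivAt (fun s => (x s).2 a) (acc m (x t).1 a) t := by
  have h := (hx.hasDerivAt t)
  have h1 := h.hasFDerivAt.snd.hasDerivAt
  have h2 := (hasDerivAt_pi.1 (by simpa using h1)) a
  simpa using h2

theorem isSol_of_comp {x : ℝ → Ph n} (h1 : ∀ t, x t ∈ phaseSpace m)
    (h2 : ∀ t a, HasDerivAt (fun s => (x s).1 a) ((x t).2 a) t)
    (h3 : ∀ t a, HasDerivAt (fun s => (x s).2 a) (acc m (x t).1 a) t) : IsSol m Set.univ x := by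
  refine isSol_of h1 fun t => ?_
  have e1 : HasDerivAt (fun s => (x s).1) ((x t).2) t := hasDerivAt_pi.2 (h2 t)
  have e2 : HasDerivAt (fun s => (x s).2) (acc m (x t).1) t := hasDerivAt_pi.2 (h3 t)
  exact e1.prodMk e2

theorem contDiffAt_acc {q : Fin n → ℂ} (hq : ∀ a b, a ≠ b → q a ≠ q b) (a : Fin n) :
    ContDiffAt ℝ 1 (fun p : Fin n → ℂ => acc m p a) q := by
  unfold acc
  refine ContDiffAt.sum fun b hb => ?_
  have hne : q b - q a ≠ 0 := sub_ne_zero.2 (hq b a (Finset.ne_of_mem_erase hb))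
  have hd : ContDiffAt ℝ 1 (fun p : Fin n → ℂ => p b - p a) q := by fun_prop
  have hn : ContDiffAt ℝ 1 (fun p : Fin n → ℂ => ‖p b - p a‖) q := hd.norm ℝ hne
  have hn3 : ContDiffAt ℝ 1 (fun p : Fin n → ℂ => m b / ‖p b - p a‖ ^ 3) q :=
    contDiffAt_const.div (hn.pow 3) (pow_ne_zero 3 (norm_ne_zero_iff.2 hne))
  have ho : ContDiffAt ℝ 1 (fun p : Fin n → ℂ => ((m b / ‖p b - p a‖ ^ 3 : ℝ) : ℂ)) q :=
    (Complex.ofRealCLM.contDiff.contDiffAt).comp q hn3
  exact ho.mul hd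

/-- The Newtonian vector field. -/
noncomputable def vf (m : Fin n → ℝ) (w : Ph n) : Ph n := (w.2, acc m w.1)

theorem contDiffAt_vf {z : Ph n} (hz : ∀ a b, a ≠ b → z.1 a ≠ z.1 b) :
    ContDiffAt ℝ 1 (vf m) z := by
  refine ContDiffAt.prodMk contDiffAt_snd ?_
  refine contDiffAt_pi.2 fun a => ?_
  exact ContDiffAt.comp (g := fun p : Fin n → ℂ => acc m p a) (f := Prod.fst) z
    (contDiffAt_acc (m := m) hz a) contDiffAt_fst

theorem local_unique {x y : ℝ → Ph n} (hx : IsSol m Set.univ x) (hy : IsSol m Set.univ y) {t : ℝ}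
    (ht : x t = y t) : x =ᶠ[𝓝 t] y := by
  obtain ⟨K, s, hs, hL⟩ := (contDiffAt_vf (m := m) (hx.mem t).1).exists_lipschitzOnWith
  have h1 : ∀ᶠ u in 𝓝 t, x u ∈ s := hx.continuous.continuousAt hs
  have h2 : ∀ᶠ u in 𝓝 t, y u ∈ s := hy.continuous.continuousAt (by rw [← ht]; exact hs)
  have hf : ∀ᶠ u in 𝓝 t, HasDerivAt x ((fun (_ : ℝ) => vf m) u (x u)) u ∧ x u ∈ (fun _ : ℝ => s) u :=
    h1.mono fun u hu => ⟨hx.hasDerivAt u, hu⟩
  have hg : ∀ᶠ u in 𝓝 t, HasDerivAt y ((fun (_ : ℝ) => vf m) u (y u)) u ∧ y u ∈ (fun _ : ℝ => s) u :=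
    h2.mono fun u hu => ⟨hy.hasDerivAt u, hu⟩
  exact ODE_solution_unique_of_eventually (Eventually.of_forall fun _ => hL) hf hg ht

/-- Uniqueness for Newton's equations. -/
theorem sol_unique {x y : ℝ → Ph n} (hx : IsSol m Set.univ x) (hy : IsSol m Set.univ y) {t₀ : ℝ}
    (h : x t₀ = y t₀) : x = y := by
  have hS : {t | x t = y t} = Set.univ := by
    refine IsClopen.eq_univ ⟨isClosed_eq hx.continuous hy.continuous, ?_⟩ ⟨t₀, h⟩
    rw [isOpen_iff_mem_nhds]
    intro t ht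
    exact local_unique hx hy ht
  funext t
  have : t ∈ {t | x t = y t} := hS ▸ Set.mem_univ t
  exact this

theorem acc_smul (c : ℂ) (hc : ‖c‖ = 1) (q : Fin n → ℂ) (a : Fin n) :
    acc m (c • q) a = c * acc m q a := by
  unfold acc
  rw [Finset.mul_sum]
  refine Finset.sum_congr rfl fun b _ => ?_
  have : (c • q) b - (c • q) a = c * (q b - q a) := by simp [mul_sub]
  rw [this, norm_mul, hc, one_mul]; ring

theorem smul_mem {c : ℂ} (hc : ‖c‖ = 1) {z : Ph n} (hz : z ∈ phaseSpace m) :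
    c • z ∈ phaseSpace m := by
  have hc0 : c ≠ 0 := by rintro rfl; simp at hc
  refine ⟨fun a b hab h => hz.1 a b hab ?_, ?_, ?_⟩
  · simpa [hc0] using h
  · have := congrArg (fun w => c * w) hz.2.1
    simpa [Finset.mul_sum, mul_left_comm] using this
  · have := congrArg (fun w => c * w) hz.2.2
    simpa [Finset.mul_sum, mul_left_comm] using this

/-- Rotated solutions are solutions. -/
theorem IsSol.smul {x : ℝ → Ph n} (hx : IsSol m Set.univ x) {c : ℂ} (hc : ‖c‖ = 1) :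
    IsSol m Set.univ (fun t => c • x t) := by
  refine isSol_of_comp (fun t => smul_mem hc (hx.mem t)) (fun t a => ?_) (fun t a => ?_)
  · have := (hasDerivAt_pos hx t a).const_mul c
    simpa using this
  · have := (hasDerivAt_vel hx t a).const_mul c
    have h2 := acc_smul (m := m) c hc (x t).1 a
    simp only [Prod.smul_fst, Prod.smul_snd, Pi.smul_apply, smul_eq_mul] at *
    rw [h2]; exact this

/-- Time-shifted solutions are solutions. -/
theorem IsSol.shift {x : ℝ → Ph n} (hx : IsSol m Set.univ x) (τ : ℝ) :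
    IsSol m Set.univ (fun t => x (t + τ)) := by
  refine isSol_of (fun t => hx.mem _) fun t => ?_
  have := (hx.hasDerivAt (t + τ)).comp_add_const t τ
  exact this

end Pool.Agent.W821.TB
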