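import Pool.Agent.W821.TB.Pot

set_option autoImplicit false

namespace Pool.Agent.W821.TB

open Complex Finset Filter Topology ComplexConjugate

variable {n : ℕ} {m : Fin n → ℝ}

/-- derivative of the energy along a curve of phase points -/
theorem hasDerivAt_energy {z : ℝ → Ph n} {ξ η : Fin n → ℂ} {t : ℝ}
    (h1 : ∀ a, HasDerivAt (fun s => (z s).1 a) (ξ a) t)
    (h2 : ∀ a, HasDerivAt (fun s => (z s).2 a) (η a) t) (hne : ∀ a b, a ≠ b → (z t).1 a ≠ (z t).1 b) :
    HasDerivAt (fun s => energy m (z s))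
      (∑ a, m a * ip ((z t).2 a) (η a) - ∑ a, m a * ip (acc m (z t).1 a) (ξ a)) t := by
  unfold energy
  have hk : HasDerivAt (fun s => (∑ a, m a * ‖(z s).2 a‖ ^ 2) / 2)
      (∑ a, m a * ip ((z t).2 a) (η a)) t := by
    have e : (fun s => (∑ a, m a * ‖(z s).2 a‖ ^ 2) / 2) =
        fun s => (∑ a, m a * ip ((z s).2 a) ((z s).2 a)) / 2 := by
      funext s; simp only [ip_self]
    rw [e]
    have h3 : ∀ a ∈ (univ : Finset (Fin n)), HasDerivAt (fun s => m a * ip ((z s).2 a) ((z s).2 a))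
        (m a * (ip (η a) ((z t).2 a) + ip ((z t).2 a) (η a))) t := fun a _ =>
      (hasDerivAt_ip (h2 a) (h2 a)).const_mul _
    have h4 := (HasDerivAt.fun_sum h3).div_const 2
    refine h4.congr_deriv ?_
    rw [Finset.sum_div]
    refine Finset.sum_congr rfl fun a _ => ?_
    simp only [ip_eq]; ring
  exact hk.sub (hasDerivAt_upot h1 hne)

theorem energy_const {x : ℝ → Ph n} (hx : IsSol m Set.univ x) (t s : ℝ) :
    energy m (x t) = energy m (x s) := by
  have h : ∀ u, HasDerivAt (fun s => energy m (x s)) 0 u := by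
    intro u
    have := hasDerivAt_energy (m := m) (hasDerivAt_pos hx u) (hasDerivAt_vel hx u) (hx.mem u).1
    refine this.congr_deriv ?_
    rw [sub_eq_zero]
    refine Finset.sum_congr rfl fun a _ => ?_
    simp only [ip_eq]; ring
  exact is_const_of_deriv_eq_zero (f := fun s => energy m (x s))
    (fun u => (h u).differentiableAt) (fun u => (h u).deriv) t s

theorem fst_deriv {z : ℝ → Ph n} {z' : Ph n} {t : ℝ} (h : HasDerivAt z z' t) (a : Fin n) :
    HasDerivAt (fun s => (z s).1 a) (z'.1 a) t := by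
  have h1 := h.hasFDerivAt.fst.hasDerivAt
  have h2 := (hasDerivAt_pi.1 (by simpa using h1)) a
  simpa using h2

theorem snd_deriv {z : ℝ → Ph n} {z' : Ph n} {t : ℝ} (h : HasDerivAt z z' t) (a : Fin n) :
    HasDerivAt (fun s => (z s).2 a) (z'.2 a) t := by
  have h1 := h.hasFDerivAt.snd.hasDerivAt
  have h2 := (hasDerivAt_pi.1 (by simpa using h1)) a
  simpa using h2

theorem mixed {V : Type*} [NormedAddCommGroup V] [NormedSpace ℝ V] {F : ℝ × ℝ → V}
    (hC : ContDiff ℝ 2 F) : ∃ (w d W : ℝ → ℝ → V) (F' : ℝ × ℝ → (ℝ × ℝ →L[ℝ] V)),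
      (∀ p, HasFDerivAt F (F' p) p) ∧ (∀ s t, F' (s, t) (1, 0) = w s t) ∧
      (∀ s t, F' (s, t) (0, 1) = d s t) ∧
      (∀ s t, HasDerivAt (fun s => F (s, t)) (w s t) s) ∧
      (∀ s t, HasDerivAt (fun t => F (s, t)) (d s t) t) ∧
      (∀ s t, HasDerivAt (fun t => w s t) (W s t) t) ∧
      (∀ s t, HasDerivAt (fun s => d s t) (W s t) s) := by
  have hF1 : ∀ p, HasFDerivAt F (fderiv ℝ F p) p := fun p =>
    (hC.differentiable (by norm_num) p).hasFDerivAt
  have hF2 : ∀ p, HasFDerivAt (fderiv ℝ F) (fderiv ℝ (fderiv ℝ F) p) p := fun p =>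
    ((hC.fderiv_right (m := 1) (by norm_num)).differentiable (by norm_num) p).hasFDerivAt
  have hline1 : ∀ s t : ℝ, HasDerivAt (fun s : ℝ => (s, t)) ((1 : ℝ), (0 : ℝ)) s := fun s t =>
    (hasDerivAt_id s).prodMk (hasDerivAt_const s t)
  have hline2 : ∀ s t : ℝ, HasDerivAt (fun t : ℝ => (s, t)) ((0 : ℝ), (1 : ℝ)) t := fun s t =>
    (hasDerivAt_const t s).prodMk (hasDerivAt_id t)
  refine ⟨fun s t => fderiv ℝ F (s, t) (1, 0), fun s t => fderiv ℝ F (s, t) (0, 1),
    fun s t => fderiv ℝ (fderiv ℝ F) (s, t) (1, 0) (0, 1), fderiv ℝ F, hF1, fun _ _ => rfl,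
    fun _ _ => rfl, fun s t => ?_, fun s t => ?_, fun s t => ?_, fun s t => ?_⟩
  · exact HasFDerivAt.comp_hasDerivAt (f := fun s : ℝ => (s, t)) s (hF1 (s, t)) (hline1 s t)
  · exact HasFDerivAt.comp_hasDerivAt (f := fun t : ℝ => (s, t)) t (hF1 (s, t)) (hline2 s t)
  · have h0 := HasFDerivAt.comp_hasDerivAt (f := fun t : ℝ => (s, t)) t (hF2 (s, t)) (hline2 s t)
    have h1 := h0.clm_apply (hasDerivAt_const t ((1 : ℝ), (0 : ℝ)))
    have hs := second_derivative_symmetric hF1 (hF2 (s, t)) (0, 1) (1, 0)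
    rw [map_zero, add_zero, hs] at h1
    exact h1
  · have h0 := HasFDerivAt.comp_hasDerivAt (f := fun s : ℝ => (s, t)) s (hF2 (s, t)) (hline1 s t)
    have h1 := h0.clm_apply (hasDerivAt_const s ((0 : ℝ), (1 : ℝ)))
    rw [map_zero, add_zero] at h1
    exact h1

/-- Period-energy relation along a smooth family of periodic solutions: `P^2 E^3` is stationary. -/
theorem period_energy {y : ℝ → ℝ → Ph n} (hC : ContDiff ℝ 2 (fun p : ℝ × ℝ => y p.1 p.2))
    (hy : ∀ s, IsSol m Set.univ (y s)) {P : ℝ → ℝ} {P' s₀ : ℝ} (hP : HasDerivAt P P' s₀)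
    (hper : ∀ᶠ s in 𝓝 s₀, y s (P s) = y s 0) :
    HasDerivAt (fun s => P s ^ 2 * energy m (y s 0) ^ 3) 0 s₀ := by
  obtain ⟨w, d, W, F', hF1, hwF, hdF, hys, hyt, hwt, hds⟩ := mixed hC
  simp only at hys hyt
  have hvf : ∀ s t, d s t = ((y s t).2, acc m (y s t).1) := fun s t =>
    (hyt s t).unique ((hy s).hasDerivAt t)
  have hvs : ∀ s t, HasDerivAt (fun s => (((y s t).2, acc m (y s t).1) : Ph n)) (W s t) s := by
    intro s t
    have e : (fun s => (((y s t).2, acc m (y s t).1) : Ph n)) = fun s => d s t := by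
      funext s; exact (hvf s t).symm
    rw [e]
    exact hds s t
  have hW1 : ∀ s t a, (W s t).1 a = (w s t).2 a := fun s t a =>
    (fst_deriv (hvs s t) a).unique (snd_deriv (hys s t) a)
  have haccs : ∀ s t a, HasDerivAt (fun s => acc m (y s t).1 a) ((W s t).2 a) s := fun s t a =>
    snd_deriv (hvs s t) a
  -- the derivative of the energy with respect to the parameter
  set e : ℝ → ℝ → ℝ := fun s t =>
    ∑ a, m a * ip ((y s t).2 a) ((w s t).2 a) - ∑ a, m a * ip (acc m (y s t).1 a) ((w s t).1 a) with he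
  have hen : ∀ s t, HasDerivAt (fun s => energy m (y s t)) (e s t) s := fun s t =>
    hasDerivAt_energy (m := m) (fst_deriv (hys s t)) (snd_deriv (hys s t)) ((hy s).mem t).1
  have he0 : ∀ s t, e s t = e s 0 := by
    intro s t
    have h1 : (fun s => energy m (y s t)) = fun s => energy m (y s 0) := by
      funext s; exact energy_const (hy s) t 0
    have h2 := hen s t
    rw [h1] at h2
    exact h2.unique (hen s 0)
  -- derivative of the virial identity
  have hvir : ∀ s t, ∑ a, m a * ip ((W s t).2 a) ((y s t).1 a) =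
      -2 * ∑ a, m a * ip (acc m (y s t).1 a) ((w s t).1 a) := by
    intro s t
    have h1 : HasDerivAt (fun s => ∑ a, m a * ip (acc m (y s t).1 a) ((y s t).1 a))
        (∑ a, m a * (ip ((W s t).2 a) ((y s t).1 a) + ip (acc m (y s t).1 a) ((w s t).1 a))) s :=
      HasDerivAt.fun_sum fun a _ =>
        (hasDerivAt_ip (haccs s t a) (fst_deriv (hys s t) a)).const_mul _
    have h2 : (fun s => ∑ a, m a * ip (acc m (y s t).1 a) ((y s t).1 a)) =
        fun s => -upot m (y s t).1 := by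
      funext s; exact virial ((hy s).mem t).1
    have h3 := (hasDerivAt_upot (m := m) (q := fun s => (y s t).1) (fst_deriv (hys s t))
      ((hy s).mem t).1).neg
    rw [h2] at h1
    have h4 := h1.unique h3
    have h5 : ∑ a, m a * (ip ((W s t).2 a) ((y s t).1 a) + ip (acc m (y s t).1 a) ((w s t).1 a)) =
        ∑ a, m a * ip ((W s t).2 a) ((y s t).1 a) +
          ∑ a, m a * ip (acc m (y s t).1 a) ((w s t).1 a) := by
      rw [← Finset.sum_add_distrib]
      exact Finset.sum_congr rfl fun a _ => by ring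
    linarith
  -- the function B
  set B : ℝ → ℝ := fun t =>
    ∑ a, m a * (ip ((w s₀ t).1 a) ((y s₀ t).2 a) + 2 * ip ((w s₀ t).2 a) ((y s₀ t).1 a)) with hB
  have hBd : ∀ t, HasDerivAt B (3 * e s₀ 0) t := by
    intro t
    have h1 : HasDerivAt B (∑ a, m a * ((ip ((W s₀ t).1 a) ((y s₀ t).2 a) +
        ip ((w s₀ t).1 a) (acc m (y s₀ t).1 a)) +
        2 * (ip ((W s₀ t).2 a) ((y s₀ t).1 a) + ip ((w s₀ t).2 a) ((y s₀ t).2 a)))) t := by
      refine HasDerivAt.fun_sum fun a _ => ?_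
      exact ((hasDerivAt_ip (fst_deriv (hwt s₀ t) a) (hasDerivAt_vel (hy s₀) t a)).add
        ((hasDerivAt_ip (snd_deriv (hwt s₀ t) a) (hasDerivAt_pos (hy s₀) t a)).const_mul 2)).const_mul _
    refine h1.congr_deriv ?_
    rw [← he0 s₀ t, he]
    simp only
    have h2 := hvir s₀ t
    have h3 : ∑ a, m a * ((ip ((W s₀ t).1 a) ((y s₀ t).2 a) +
        ip ((w s₀ t).1 a) (acc m (y s₀ t).1 a)) +
        2 * (ip ((W s₀ t).2 a) ((y s₀ t).1 a) + ip ((w s₀ t).2 a) ((y s₀ t).2 a))) =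
        3 * ∑ a, m a * ip ((y s₀ t).2 a) ((w s₀ t).2 a) +
        ∑ a, m a * ip (acc m (y s₀ t).1 a) ((w s₀ t).1 a) +
        2 * ∑ a, m a * ip ((W s₀ t).2 a) ((y s₀ t).1 a) := by
      rw [Finset.mul_sum, Finset.mul_sum, ← Finset.sum_add_distrib, ← Finset.sum_add_distrib]
      refine Finset.sum_congr rfl fun a _ => ?_
      rw [hW1]
      simp only [ip_eq]; ring
    rw [h3, h2]; ring
  have hBlin : B (P s₀) - B 0 = 3 * e s₀ 0 * P s₀ := by
    have h1 : ∀ t, HasDerivAt (fun t => B t - 3 * e s₀ 0 * t) 0 t := by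
      intro t
      have h0 := (hBd t).sub ((hasDerivAt_id t).const_mul (3 * e s₀ 0))
      have h00 : 3 * e s₀ 0 - 3 * e s₀ 0 * 1 = 0 := by ring
      rw [h00] at h0
      exact h0
    have h2 := is_const_of_deriv_eq_zero (f := fun t => B t - 3 * e s₀ 0 * t)
      (fun u => (h1 u).differentiableAt) (fun u => (h1 u).deriv) (P s₀) 0
    linarith
  -- periodicity
  have hps : y s₀ (P s₀) = y s₀ 0 := hper.self_of_nhds
  have hwP : w s₀ (P s₀) + P' • (((y s₀ 0).2, acc m (y s₀ 0).1) : Ph n) = w s₀ 0 := by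
    have hline : HasDerivAt (fun s => (s, P s)) ((1 : ℝ), P') s₀ := (hasDerivAt_id s₀).prodMk hP
    have h1 := HasFDerivAt.comp_hasDerivAt (f := fun s : ℝ => (s, P s)) s₀ (hF1 (s₀, P s₀)) hline
    have h2 := (hys s₀ 0).congr_of_eventuallyEq hper
    have h3 := h1.unique h2
    have h4 : ((1 : ℝ), P') = (1, 0) + P' • ((0 : ℝ), (1 : ℝ)) := by simp
    rw [h4, map_add, map_smul, hwF, hdF, hvf, hps] at h3
    exact h3
  have hx1 : ∀ a, (w s₀ (P s₀)).1 a = (w s₀ 0).1 a - P' * (y s₀ 0).2 a := by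
    intro a
    have := congrArg (fun z : Ph n => z.1 a) hwP
    simp only [Prod.fst_add, Prod.smul_fst, Pi.add_apply, Pi.smul_apply, Complex.real_smul] at this
    linear_combination this
  have hx2 : ∀ a, (w s₀ (P s₀)).2 a = (w s₀ 0).2 a - P' * acc m (y s₀ 0).1 a := by
    intro a
    have := congrArg (fun z : Ph n => z.2 a) hwP
    simp only [Prod.snd_add, Prod.smul_snd, Pi.add_apply, Pi.smul_apply, Complex.real_smul] at this
    linear_combination this
  have hBdiff : B (P s₀) - B 0 = -2 * P' * energy m (y s₀ 0) := by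
    rw [hB]
    simp only
    rw [hps, ← Finset.sum_sub_distrib]
    have h1 : ∑ a, (m a * (ip ((w s₀ (P s₀)).1 a) ((y s₀ 0).2 a) +
          2 * ip ((w s₀ (P s₀)).2 a) ((y s₀ 0).1 a)) -
        m a * (ip ((w s₀ 0).1 a) ((y s₀ 0).2 a) + 2 * ip ((w s₀ 0).2 a) ((y s₀ 0).1 a))) =
        -P' * ∑ a, m a * ‖(y s₀ 0).2 a‖ ^ 2 +
          (-2 * P') * ∑ a, m a * ip (acc m (y s₀ 0).1 a) ((y s₀ 0).1 a) := by
      rw [Finset.mul_sum, Finset.mul_sum, ← Finset.sum_add_distrib]
      refine Finset.sum_congr rfl fun a _ => ?_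
      rw [hx1, hx2, ← ip_self]
      simp only [ip_eq, Complex.sub_re, Complex.sub_im, Complex.re_ofReal_mul, Complex.im_ofReal_mul]
      ring
    rw [h1, virial ((hy s₀).mem 0).1]
    unfold energy
    ring
  have hkey : 2 * P' * energy m (y s₀ 0) + 3 * e s₀ 0 * P s₀ = 0 := by linarith
  have hfin := (hP.pow 2).mul ((hen s₀ 0).pow 3)
  refine hfin.congr_deriv ?_
  simp only [Pi.pow_apply]
  norm_num
  linear_combination P s₀ * energy m (y s₀ 0) ^ 2 * hkey

end Pool.Agent.W821.TB
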