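import Mathlib

set_option autoImplicit false

namespace Pool.Agent.W821.TB

/-- The multiples of an angle that avoid a fixed arc are multiples of a rational angle with bounded
denominator. -/
def ArcStmt : Prop :=
  ∀ s₀ η : ℝ, 0 < η → ∃ N : ℕ, 1 ≤ N ∧ ∀ θ : ℝ,
    (∀ (k : ℕ) (j : ℤ), η ≤ |(k : ℝ) * θ - s₀ - 2 * Real.pi * (j : ℝ)|) →
      ∃ d : ℕ, 1 ≤ d ∧ d ≤ N ∧ ∃ j : ℤ, (d : ℝ) * θ = 2 * Real.pi * (j : ℝ)

/-- Two planar configurations with centre of mass `0` and the same mutual distances differ by a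
rotation or by a reflection. -/
def GramStmt : Prop :=
  ∀ (n : ℕ) (m : Fin n → ℝ), 2 ≤ n → (∀ a, 0 < m a) → ∀ p P : Fin n → ℂ,
    (∑ a, (m a : ℂ) * p a = 0) → (∑ a, (m a : ℂ) * P a = 0) → (∀ a b, a ≠ b → p a ≠ p b) →
    (∀ a b, ‖P a - P b‖ = ‖p a - p b‖) →
    (∃ u : ℂ, ‖u‖ = 1 ∧ ∀ a, P a = u * p a) ∨
      (∃ w : ℂ, ‖w‖ = 1 ∧ ∀ a, P a = w * (starRingEnd ℂ) (p a))

/-- A point `p` and a countable set `A` of times: some rotation of the circle is not attained. -/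
def UncStmt : Prop :=
  ∀ (A : Set ℝ), A.Countable → ∀ (f : ℝ → ℂ), (∃ s : ℝ, ∀ t ∈ A, Complex.exp (s * Complex.I) ≠ f t)

end Pool.Agent.W821.TB
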