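import Pool.Agent.W821.TB.Main
import Pool.Agent.W827.TB.Gram

set_option autoImplicit false

namespace Pool.Agent.W821.TB

open Complex Finset Filter Topology ComplexConjugate

variable {n : ℕ} {m : Fin n → ℝ}

theorem closure_invariant {y : ℝ → Ph n} {c : ℂ} {τ : ℝ} (hτ : 0 < τ)
    (h : ∀ t, y (t + τ) = c • y t) :
    ∀ z ∈ closure (y '' Set.Ici 0), c • z ∈ closure (y '' Set.Ici 0) := by
  intro z hz
  have hc : Continuous (fun w : Ph n => c • w) := by fun_prop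
  refine map_mem_closure hc hz ?_
  rintro _ ⟨t, ht, rfl⟩
  exact ⟨t + τ, Set.mem_Ici.2 (add_nonneg (Set.mem_Ici.1 ht) hτ.le), h t⟩

theorem final (hn : 2 ≤ n) (hm : ∀ a, 0 < m a) {x : ℝ → Ph n} (hx : IsSol m Set.univ x)
    {T : ℝ} (hT0 : 0 < T) (hT : DistPer x T) (hst : LyapunovStable m (Set.range x)) :
    IsRelEq x ∨ ∃ K : ℕ, 1 ≤ K ∧
      (∀ c : ℂ, ‖c‖ = 1 → ((∀ t, c • x t ∈ Set.range x) ↔ c ^ K = 1)) ∧
      ∃ U : Set (Ph n), IsOpen U ∧ Set.range x ⊆ U ∧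
        (∀ y : ℝ → Ph n, IsSol m (Set.Ici 0) y → y 0 ∈ U → ∀ c : ℂ, ‖c‖ = 1 →
          (∀ z ∈ closure (y '' Set.Ici 0), c • z ∈ closure (y '' Set.Ici 0)) → c ^ K = 1) ∧
        (∀ y : ℝ → Ph n, IsSol m Set.univ y → y 0 ∈ U → ∀ S : ℝ, 0 < S → DistPer y S →
          ∀ t, y (t + 2 * K * S) = y t) := by
  have hG := Pool.Agent.W827.TB.Gram.main
  by_cases hre : IsRelEq x
  · exact Or.inl hre
  right
  obtain ⟨s₀, hs₀⟩ := exists_rotation_notMem hn hx hre
  obtain ⟨c, hc, hrot⟩ := rot_of_distPer hG hn hm hx hT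
  obtain ⟨θ, rfl⟩ := exists_angle hc
  have hex : ∃ d : ℕ, 1 ≤ d ∧ ∃ j : ℤ, (d : ℝ) * θ = 2 * Real.pi * (j : ℝ) := by
    by_contra hcon
    push Not at hcon
    exact not_stable_of_infinite_order hx hs₀ hrot (by positivity) hcon hst
  obtain ⟨d, hd, j, hj⟩ := hex
  have hper : ∀ t, x (t + d * (2 * T)) = x t := by
    intro t
    rw [iter_smul hrot d t, ← Complex.exp_nat_mul]
    have e : (d : ℂ) * (θ * I) = j * (2 * Real.pi * I) := by
      have := congrArg (fun r : ℝ => (r : ℂ) * I) hj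
      push_cast at this
      linear_combination this
    rw [e, Complex.exp_int_mul_two_pi_mul_I, one_smul]
  have hP : 0 < d * (2 * T) := by
    have : (0 : ℝ) < d := by exact_mod_cast hd
    positivity
  obtain ⟨K, hK, hK2, U, hU, hγ, hlock⟩ := locked_of_periodic hx hs₀ hP hper hst
  refine ⟨K, hK, hK2, U, hU, hγ, hlock, ?_⟩
  intro y hy hy0 S hS hyS t
  obtain ⟨c', hc', hrot'⟩ := rot_of_distPer hG hn hm hy hyS
  have h1 := hlock y (hy.restrict _) hy0 c' hc' (closure_invariant (by positivity) hrot')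
  have h2 := iter_smul hrot' K t
  rw [h1, one_smul] at h2
  rw [← h2]
  congr 1; ring

end Pool.Agent.W821.TB
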