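import Pool.Agent.W821.TB.Rot

set_option autoImplicit false

namespace Pool.Agent.W821.TB

open Complex Finset Filter Topology ComplexConjugate

variable {n : ℕ} {m : Fin n → ℝ}

theorem norm_expI (s : ℝ) : ‖Complex.exp (s * I)‖ = 1 := Complex.norm_exp_ofReal_mul_I s

theorem exists_angle {c : ℂ} (hc : ‖c‖ = 1) : ∃ θ : ℝ, c = Complex.exp (θ * I) := by
  refine ⟨Complex.arg c, ?_⟩
  have := Complex.norm_mul_exp_arg_mul_I c
  rw [hc] at this
  simpa using this.symm

theorem unc (A : Set ℝ) (hA : A.Countable) (f : ℝ → ℂ) :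
    ∃ s : ℝ, ∀ t ∈ A, Complex.exp (s * I) ≠ f t := by
  by_contra hcon
  push Not at hcon
  choose g hg hg2 using hcon
  have hinj : Set.InjOn g (Set.Ioo (0 : ℝ) 1) := by
    intro s hs s' hs' h
    have e : Complex.exp (s * I) = Complex.exp (s' * I) := by rw [hg2, hg2, h]
    rw [Complex.exp_eq_exp_iff_exists_int] at e
    obtain ⟨k, hk⟩ := e
    have h1 : s = s' + k * (2 * Real.pi) := by
      have := congrArg Complex.im hk
      simpa using this
    have hpi := Real.pi_gt_three
    have hk0 : k = 0 := by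
      by_contra hk0
      rcases lt_or_gt_of_ne hk0 with h2 | h2
      · have h3 : (k : ℝ) ≤ -1 := by exact_mod_cast (by omega : k ≤ -1)
        nlinarith [hs.1, hs.2, hs'.1, hs'.2]
      · have h3 : (1 : ℝ) ≤ k := by exact_mod_cast (by omega : 1 ≤ k)
        nlinarith [hs.1, hs.2, hs'.1, hs'.2]
    rw [h1, hk0]; simp
  have hc : (Set.Ioo (0 : ℝ) 1).Countable :=
    Set.MapsTo.countable_of_injOn (fun s _ => hg s) hinj hA
  rw [Cardinal.Real.Ioo_countable_iff] at hc
  linarith

/-- If one phase point is a rotated copy of another one on the same solution, so are all the later ones. -/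
theorem smul_prop {x : ℝ → Ph n} (hx : IsSol m Set.univ x) {c : ℂ} (hc : ‖c‖ = 1) {t s : ℝ}
    (h : x t = c • x s) (u : ℝ) : x (u + t) = c • x (u + s) := by
  have h1 := hx.shift t
  have h2 := (hx.shift s).smul hc
  have h3 := sol_unique (t₀ := 0) h1 h2 (by simpa using h)
  exact congrFun h3 u

/-- The times at which the phase point is a rotated copy of the initial one. -/
def recGroup {x : ℝ → Ph n} (hx : IsSol m Set.univ x) : AddSubgroup ℝ where
  carrier := {t | ∃ c : ℂ, ‖c‖ = 1 ∧ x t = c • x 0}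
  zero_mem' := ⟨1, by simp, by simp⟩
  add_mem' := by
    rintro s t ⟨c, hc, h1⟩ ⟨d, hd, h2⟩
    refine ⟨d * c, by rw [norm_mul, hc, hd, one_mul], ?_⟩
    have := smul_prop hx hd h2 s
    rw [this, add_zero, h1, smul_smul]
  neg_mem' := by
    rintro t ⟨c, hc, h1⟩
    have hc0 : c ≠ 0 := by rintro rfl; simp at hc
    refine ⟨c⁻¹, by rw [norm_inv, hc, inv_one], ?_⟩
    have := smul_prop hx hc h1 (-t)
    rw [neg_add_cancel, add_zero] at this
    rw [this, smul_smul, inv_mul_cancel₀ hc0, one_smul]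

/-- A relative equilibrium: all mutual distances are constant. -/
def IsRelEq (x : ℝ → Ph n) : Prop :=
  ∀ t a b, ‖(x t).1 a - (x t).1 b‖ = ‖(x 0).1 a - (x 0).1 b‖

theorem recGroup_closed {x : ℝ → Ph n} (hx : IsSol m Set.univ x) :
    IsClosed (recGroup hx : Set ℝ) := by
  have hK : IsCompact ((fun c : ℂ => c • x 0) '' Metric.sphere (0 : ℂ) 1) :=
    (isCompact_sphere _ _).image (by fun_prop)
  have : (recGroup hx : Set ℝ) = x ⁻¹' ((fun c : ℂ => c • x 0) '' Metric.sphere (0 : ℂ) 1) := by
    ext t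
    constructor
    · rintro ⟨c, hc, h⟩
      exact ⟨c, by simpa using hc, h.symm⟩
    · rintro ⟨c, hc, h⟩
      exact ⟨c, by simpa using hc, h.symm⟩
  rw [this]
  exact hK.isClosed.preimage hx.continuous

/-- A solution that is not a relative equilibrium has an orbit that is not invariant under all rotations. -/
theorem exists_rotation_notMem (hn : 2 ≤ n) {x : ℝ → Ph n} (hx : IsSol m Set.univ x)
    (hre : ¬ IsRelEq x) : ∃ s : ℝ, Complex.exp (s * I) • x 0 ∉ Set.range x := by
  rcases AddSubgroup.dense_or_cyclic (recGroup hx) with hd | ⟨a, ha⟩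
  · exfalso
    apply hre
    intro t a b
    have : t ∈ (recGroup hx : Set ℝ) := by
      have h1 := hd.closure_eq
      rw [(recGroup_closed hx).closure_eq] at h1
      rw [h1]; trivial
    obtain ⟨c, hc, h⟩ := this
    rw [h]
    have : (c • x 0).1 a - (c • x 0).1 b = c * ((x 0).1 a - (x 0).1 b) := by simp [mul_sub]
    rw [this, norm_mul, hc, one_mul]
  · have hcount : (recGroup hx : Set ℝ).Countable := by
      rw [ha]
      have : ((AddSubgroup.closure {a} : AddSubgroup ℝ) : Set ℝ) ⊆ Set.range (fun k : ℤ => k • a) := by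
        intro t ht
        obtain ⟨k, hk⟩ := AddSubgroup.mem_closure_singleton.1 ht
        exact ⟨k, hk⟩
      exact (Set.countable_range _).mono this
    obtain ⟨b, hb⟩ := exists_ne_zero hn (hx.mem 0)
    obtain ⟨s, hs⟩ := unc _ hcount (fun t => (x t).1 b / (x 0).1 b)
    refine ⟨s, ?_⟩
    rintro ⟨t, ht⟩
    refine hs t ⟨_, norm_expI s, ht⟩ ?_
    rw [ht]
    simp [hb]

theorem iter_smul {x : ℝ → Ph n} {c : ℂ} {τ : ℝ} (h : ∀ t, x (t + τ) = c • x t) (k : ℕ) (t : ℝ) :
    x (t + k * τ) = c ^ k • x t := by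
  induction k with
  | zero => simp
  | succ k ih =>
    have e : t + ((k + 1 : ℕ) : ℝ) * τ = (t + k * τ) + τ := by push_cast; ring
    rw [e, h, ih, smul_smul, pow_succ']

end Pool.Agent.W821.TB
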