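import Pool.Agent.W821.TB.Ang
import Pool.Agent.W821.TB.Stm

set_option autoImplicit false

namespace Pool.Agent.W821.TB

open Complex Finset Filter Topology ComplexConjugate

variable {n : ℕ} {m : Fin n → ℝ}

/-- All mutual distances are `T`-periodic. -/
def DistPer (x : ℝ → Ph n) (T : ℝ) : Prop :=
  ∀ t a b, ‖(x (t + T)).1 a - (x (t + T)).1 b‖ = ‖(x t).1 a - (x t).1 b‖

theorem exists_ne_zero (hn : 2 ≤ n) {z : Ph n} (hz : z ∈ phaseSpace m) : ∃ a, z.1 a ≠ 0 := by
  have hne : z.1 ⟨0, by omega⟩ ≠ z.1 ⟨1, by omega⟩ := hz.1 _ _ (by simp)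
  by_contra hcon
  push Not at hcon
  exact hne (by rw [hcon, hcon])

theorem conj_mul_self_of_norm {u : ℂ} (hu : ‖u‖ = 1) : conj u * u = 1 := by
  rw [← Complex.normSq_eq_conj_mul_self, Complex.normSq_eq_norm_sq, hu]; norm_num

theorem caseA (hn : 2 ≤ n) (hm : ∀ a, 0 < m a) {x Q : ℝ → Ph n} (hx : IsSol m Set.univ x)
    (hQ : IsSol m Set.univ Q) {t₀ : ℝ} (hang : ang m (Q t₀) = ang m (x t₀)) {U : ℝ → ℂ} {U' : ℂ}
    (hU : HasDerivAt U U' t₀)
    (h : ∀ᶠ t in 𝓝 t₀, ‖U t‖ = 1 ∧ ∀ a, (Q t).1 a = U t * (x t).1 a) :
    Q = fun t => U t₀ • x t := by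
  have h0 := h.self_of_nhds
  -- velocities
  have hV : ∀ a, (Q t₀).2 a = U' * (x t₀).1 a + U t₀ * (x t₀).2 a := by
    intro a
    have e1 := hasDerivAt_pos hQ t₀ a
    have e2 := hU.mul (hasDerivAt_pos hx t₀ a)
    have e3 : (fun s => (Q s).1 a) =ᶠ[𝓝 t₀] (fun s => U s * (x s).1 a) := h.mono fun t ht => ht.2 a
    exact e1.unique (e2.congr_of_eventuallyEq e3)
  have hN : conj U' * U t₀ + conj (U t₀) * U' = 0 := by
    have e1 := (hasDerivAt_conj hU).mul hU
    have e2 : (fun s => conj (U s) * U s) =ᶠ[𝓝 t₀] (fun _ => (1 : ℂ)) :=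
      h.mono fun t ht => conj_mul_self_of_norm ht.1
    exact e1.unique ((hasDerivAt_const t₀ (1 : ℂ)).congr_of_eventuallyEq e2)
  have hA : ang m (Q t₀) = (conj (U t₀) * U').im * mom m (x t₀) + ang m (x t₀) := by
    unfold ang mom
    rw [Finset.mul_sum, ← Finset.sum_add_distrib]
    refine Finset.sum_congr rfl fun a _ => ?_
    rw [h0.2 a, hV a]
    have hUU := conj_mul_self_of_norm h0.1
    have e : conj (U t₀ * (x t₀).1 a) * (U' * (x t₀).1 a + U t₀ * (x t₀).2 a) =
        (conj (U t₀) * U') * (normSq ((x t₀).1 a) : ℂ) + conj ((x t₀).1 a) * (x t₀).2 a := by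
      rw [Complex.normSq_eq_conj_mul_self, map_mul]
      linear_combination (conj ((x t₀).1 a) * (x t₀).2 a) * hUU
    rw [e, Complex.add_im, Complex.im_mul_ofReal]
    ring
  have hmom := mom_pos hn hm (hx.mem t₀)
  have him : (conj (U t₀) * U').im = 0 := by
    have : (conj (U t₀) * U').im * mom m (x t₀) = 0 := by linarith
    exact (mul_eq_zero.1 this).resolve_right hmom.ne'
  have hre : (conj (U t₀) * U').re = 0 := by
    have := congrArg Complex.re hN
    have e : (conj U' * U t₀).re = (conj (U t₀) * U').re := by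
      simp only [Complex.mul_re, Complex.conj_re, Complex.conj_im]; ring
    rw [Complex.add_re, e] at this
    simp only [Complex.zero_re] at this
    linarith
  have hz : conj (U t₀) * U' = 0 := Complex.ext hre him
  have hU0 : U' = 0 := by
    rcases mul_eq_zero.1 hz with h1 | h1
    · exfalso
      have : U t₀ = 0 := by simpa using h1
      have h2 := h0.1
      rw [this] at h2; simp at h2
    · exact h1
  have hpt : Q t₀ = U t₀ • x t₀ := by
    ext a
    · simpa using h0.2 a
    · have := hV a
      rw [hU0, zero_mul, zero_add] at this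
      simpa using this
  exact sol_unique hQ (hx.smul h0.1) hpt

theorem mom_hasDeriv {x : ℝ → Ph n} (hx : IsSol m Set.univ x) (t : ℝ) :
    DifferentiableAt ℝ (fun s => mom m (x s)) t := by
  unfold mom
  refine DifferentiableAt.fun_sum fun a _ => ?_
  have h1 := hasDerivAt_rec ((hasDerivAt_conj (hasDerivAt_pos hx t a)).mul (hasDerivAt_pos hx t a))
  have h2 : (fun s => normSq ((x s).1 a)) = fun s => (conj ((x s).1 a) * (x s).1 a).re := by
    funext s
    rw [← Complex.normSq_eq_conj_mul_self, Complex.ofReal_re]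
  have h3 : DifferentiableAt ℝ (fun s => normSq ((x s).1 a)) t := by
    rw [h2]; exact h1.differentiableAt
  exact h3.const_mul _

/-- The reflected case: `Q = W • conj x` for all times. Either `W` is constant, or the configuration is
collinear at all times. -/
theorem caseB (hn : 2 ≤ n) (hm : ∀ a, 0 < m a) {x Q : ℝ → Ph n} (hx : IsSol m Set.univ x)
    (hQ : IsSol m Set.univ Q) (hang : ∀ t, ang m (Q t) = ang m (x t)) {W : ℝ → ℂ}
    (hWd : ∀ t, DifferentiableAt ℝ W t) (h : ∀ t, ‖W t‖ = 1 ∧ ∀ a, (Q t).1 a = W t * conj ((x t).1 a))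
    {T : ℝ} (hshift : ∀ t, Q t = x (t + T)) :
    (∃ w : ℂ, ‖w‖ = 1 ∧ ∀ t a, (Q t).1 a = w * conj ((x t).1 a) ∧ (Q t).2 a = w * conj ((x t).2 a)) ∨
      ∀ t a b, (conj ((x t).1 a) * (x t).1 b).im = 0 := by
  have hW : ∀ t, HasDerivAt W (deriv W t) t := fun t => (hWd t).hasDerivAt
  -- velocities
  have hV : ∀ t a, (Q t).2 a = deriv W t * conj ((x t).1 a) + W t * conj ((x t).2 a) := by
    intro t a
    have e1 := hasDerivAt_pos hQ t a
    have e2 := (hW t).mul (hasDerivAt_conj (hasDerivAt_pos hx t a))
    have e3 : (fun s => (Q s).1 a) = (fun s => W s * conj ((x s).1 a)) := by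
      funext s; exact (h s).2 a
    rw [e3] at e1
    exact e1.unique e2
  have hWW : ∀ t, conj (W t) * W t = 1 := fun t => conj_mul_self_of_norm (h t).1
  have hN : ∀ t, conj (deriv W t) * W t + conj (W t) * deriv W t = 0 := by
    intro t
    have e1 := (hasDerivAt_conj (hW t)).mul (hW t)
    have e2 : (fun s => conj (W s) * W s) = (fun _ => (1 : ℂ)) := by funext s; exact hWW s
    have e3 := hasDerivAt_const t (1 : ℂ)
    rw [← e2] at e3
    exact e1.unique e3
  have hre : ∀ t, (conj (W t) * deriv W t).re = 0 := by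
    intro t
    have := congrArg Complex.re (hN t)
    have e : (conj (deriv W t) * W t).re = (conj (W t) * deriv W t).re := by
      simp only [Complex.mul_re, Complex.conj_re, Complex.conj_im]; ring
    rw [Complex.add_re, e] at this
    simp only [Complex.zero_re] at this
    linarith
  have hA : ∀ t, ang m (Q t) = (conj (W t) * deriv W t).im * mom m (x t) - ang m (x t) := by
    intro t
    unfold ang mom
    rw [Finset.mul_sum, ← Finset.sum_sub_distrib]
    refine Finset.sum_congr rfl fun a _ => ?_
    rw [(h t).2 a, hV t a]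
    have e : conj (W t * conj ((x t).1 a)) * (deriv W t * conj ((x t).1 a) + W t * conj ((x t).2 a)) =
        (conj (W t) * deriv W t) * (normSq ((x t).1 a) : ℂ) + (x t).1 a * conj ((x t).2 a) := by
      rw [Complex.normSq_eq_conj_mul_self, map_mul, Complex.conj_conj]
      linear_combination ((x t).1 a * conj ((x t).2 a)) * hWW t
    have e2 : ((x t).1 a * conj ((x t).2 a)).im = -(conj ((x t).1 a) * (x t).2 a).im := by
      simp only [Complex.mul_im, Complex.conj_re, Complex.conj_im]; ring
    rw [e, Complex.add_im, Complex.im_mul_ofReal, e2]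
    ring
  set L := ang m (x 0) with hL
  have hLt : ∀ t, ang m (x t) = L := fun t => ang_const hx t 0
  have hmom : ∀ t, 0 < mom m (x t) := fun t => mom_pos hn hm (hx.mem t)
  set κ : ℝ → ℝ := fun t => 2 * L / mom m (x t) with hκ
  have him : ∀ t, (conj (W t) * deriv W t).im = κ t := by
    intro t
    have h1 := hA t
    rw [hang t, hLt t] at h1
    rw [hκ]
    simp only
    rw [eq_div_iff (hmom t).ne']
    linarith
  have hW' : ∀ t, deriv W t = I * κ t * W t := by
    intro t
    have e : conj (W t) * deriv W t = I * κ t := by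
      apply Complex.ext
      · rw [hre t]; simp
      · rw [him t]; simp
    have : W t * (conj (W t) * deriv W t) = deriv W t := by
      linear_combination (deriv W t) * hWW t
    rw [← this, e]; ring
  by_cases hL0 : L = 0
  · left
    have hκ0 : ∀ t, κ t = 0 := fun t => by simp [hκ, hL0]
    have hd0 : ∀ t, deriv W t = 0 := fun t => by rw [hW' t, hκ0 t]; simp
    have hc : ∀ t, W t = W 0 := fun t => is_const_of_deriv_eq_zero (fun s => hWd s) hd0 t 0
    refine ⟨W 0, (h 0).1, fun t a => ⟨?_, ?_⟩⟩
    · rw [(h t).2 a, hc t]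
    · rw [hV t a, hd0 t, hc t]; simp
  · right
    have hκne : ∀ t, κ t ≠ 0 := fun t => by
      rw [hκ]; exact div_ne_zero (mul_ne_zero two_ne_zero hL0) (hmom t).ne'
    have hκd : ∀ t, HasDerivAt κ (deriv κ t) t := by
      intro t
      have : DifferentiableAt ℝ κ t :=
        (differentiableAt_const _).div (mom_hasDeriv hx t) (hmom t).ne'
      exact this.hasDerivAt
    have hκdc : ∀ t, HasDerivAt (fun s => (κ s : ℂ)) ((deriv κ t : ℝ) : ℂ) t :=
      fun t => (hκd t).ofReal_comp
    -- second derivative
    have hE : ∀ t a, 2 * I * κ t * (x t).2 a = -(((κ t : ℂ)) ^ 2 + I * (deriv κ t : ℝ)) * (x t).1 a := by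
      intro t a
      have e1 := hasDerivAt_vel hQ t a
      have e2 : (fun s => (Q s).2 a) =
          fun s => W s * (I * κ s * conj ((x s).1 a) + conj ((x s).2 a)) := by
        funext s; rw [hV s a, hW' s]; ring
      have d1 := (((hκdc t).const_mul I).mul (hasDerivAt_conj (hasDerivAt_pos hx t a))).add
        (hasDerivAt_conj (hasDerivAt_vel hx t a))
      have d2 := (hW t).mul d1
      rw [e2] at e1
      have e3 := e1.unique d2
      have e4 : acc m (Q t).1 a = W t * conj (acc m (x t).1 a) := by
        have : (Q t).1 = fun b => W t * conj ((x t).1 b) := by funext b; exact (h t).2 b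
        rw [this]
        exact acc_conj (W t) (h t).1 _ a
      rw [e4, hW' t] at e3
      have hW0 : W t ≠ 0 := by
        intro h0; have := (h t).1; rw [h0] at this; simp at this
      have e5 : W t * (I * κ t * (I * κ t * conj ((x t).1 a) + conj ((x t).2 a)) +
          (I * (deriv κ t : ℝ) * conj ((x t).1 a) + I * κ t * conj ((x t).2 a))) = 0 := by
        try dsimp only [Pi.mul_apply, Pi.add_apply] at e3
        linear_combination -e3
      have e6 := (mul_eq_zero.1 e5).resolve_left hW0
      have e7 := congrArg conj e6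
      simp only [map_add, map_mul, Complex.conj_I, Complex.conj_ofReal, Complex.conj_conj, map_zero] at e7
      have hI : I ^ 2 = -1 := Complex.I_sq
      linear_combination -e7 + (κ t : ℂ) ^ 2 * (x t).1 a * hI
    have hzero : ∀ a b, ∀ t s, κ t * (conj ((x t).1 a) * (x t).1 b).im =
        κ s * (conj ((x s).1 a) * (x s).1 b).im := by
      intro a b t s
      have hder : ∀ u, HasDerivAt (fun r => κ r * (conj ((x r).1 a) * (x r).1 b).im) 0 u := by
        intro u
        have d := (hκd u).mul (hasDerivAt_imc
          ((hasDerivAt_conj (hasDerivAt_pos hx u a)).mul (hasDerivAt_pos hx u b)))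
        refine d.congr_deriv ?_
        have ea := hE u a
        have eb := hE u b
        have ea' := congrArg conj ea
        simp only [map_add, map_mul, map_neg, map_pow, Complex.conj_I, Complex.conj_ofReal,
          map_ofNat] at ea'
        have hI : I ^ 2 = -1 := Complex.I_sq
        have key : (κ u : ℂ) * (conj ((x u).2 a) * (x u).1 b + conj ((x u).1 a) * (x u).2 b) =
            -((deriv κ u : ℝ) : ℂ) * (conj ((x u).1 a) * (x u).1 b) := by
          have k2 : (2 * I) * ((κ u : ℂ) * (conj ((x u).2 a) * (x u).1 b + conj ((x u).1 a) * (x u).2 b)) =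
            (2 * I) * (-((deriv κ u : ℝ) : ℂ) * (conj ((x u).1 a) * (x u).1 b)) := by
            linear_combination (-(x u).1 b) * ea' + (conj ((x u).1 a)) * eb
          exact mul_left_cancel₀ (by simp) k2
        have k3 := congrArg Complex.im key
        rw [Complex.im_ofReal_mul] at k3
        have k4 : (-((deriv κ u : ℝ) : ℂ) * (conj ((x u).1 a) * (x u).1 b)).im =
            -(deriv κ u) * (conj ((x u).1 a) * (x u).1 b).im := by
          rw [← Complex.ofReal_neg, Complex.im_ofReal_mul]
        rw [k4] at k3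
        try simp only [Pi.mul_apply]
        linear_combination k3
      exact is_const_of_deriv_eq_zero (f := fun r => κ r * (conj ((x r).1 a) * (x r).1 b).im)
        (fun u => (hder u).differentiableAt) (fun u => (hder u).deriv) t s
    intro t a b
    have e1 := hzero a b (t + T) t
    have e2 : κ (t + T) = κ t := by
      have : mom m (x (t + T)) = mom m (x t) := by
        rw [← hshift t]
        unfold mom
        refine Finset.sum_congr rfl fun c _ => ?_
        rw [(h t).2 c, Complex.normSq_mul, Complex.normSq_conj, Complex.normSq_eq_norm_sq (W t), (h t).1]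
        ring
      simp only [hκ, this]
    have e3 : (conj ((x (t + T)).1 a) * (x (t + T)).1 b).im = -(conj ((x t).1 a) * (x t).1 b).im := by
      rw [← hshift t, (h t).2 a, (h t).2 b]
      have : conj (W t * conj ((x t).1 a)) * (W t * conj ((x t).1 b)) =
          (x t).1 a * conj ((x t).1 b) := by
        rw [map_mul, Complex.conj_conj]
        linear_combination ((x t).1 a * conj ((x t).1 b)) * hWW t
      rw [this]
      simp only [Complex.mul_im, Complex.conj_re, Complex.conj_im]; ring
    rw [e2, e3] at e1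
    have e4 : κ t * (conj ((x t).1 a) * (x t).1 b).im = 0 := by linarith
    exact (mul_eq_zero.1 e4).resolve_left (hκne t)

end Pool.Agent.W821.TB
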