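import Pool.Agent.W821.TB.Inv
import Pool.Agent.W410.TB.Arc

set_option autoImplicit false

namespace Pool.Agent.W821.TB

open Complex Finset Filter Topology ComplexConjugate

variable {n : ℕ} {m : Fin n → ℝ}

/-- Lyapunov stability of a set of phase points. -/
def LyapunovStable (m : Fin n → ℝ) (γ : Set (Ph n)) : Prop :=
  ∀ U₁ : Set (Ph n), IsOpen U₁ → γ ⊆ U₁ → ∃ U₂ : Set (Ph n), IsOpen U₂ ∧ γ ⊆ U₂ ∧
    ∀ y : ℝ → Ph n, IsSol m (Set.Ici 0) y → y 0 ∈ U₂ → ∀ t : ℝ, 0 ≤ t → y t ∈ U₁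

/-- If `c` has infinite order, the orbit is not Lyapunov stable. -/
theorem not_stable_of_infinite_order {x : ℝ → Ph n} (hx : IsSol m Set.univ x) {s₀ : ℝ}
    (hs₀ : Complex.exp (s₀ * I) • x 0 ∉ Set.range x) {θ τ : ℝ}
    (hc : ∀ t, x (t + τ) = Complex.exp (θ * I) • x t) (hτ : 0 < τ)
    (hinf : ∀ d : ℕ, 1 ≤ d → ∀ j : ℤ, (d : ℝ) * θ ≠ 2 * Real.pi * (j : ℝ))
    (hst : LyapunovStable m (Set.range x)) : False := by
  obtain ⟨U₂, hU₂, hγ, hstab⟩ := hst {Complex.exp (s₀ * I) • x 0}ᶜ isOpen_compl_singleton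
    (fun z hz h => hs₀ (by rw [Set.mem_singleton_iff] at h; rw [← h]; exact hz))
  -- small rotations keep `x 0` inside `U₂`
  have hcont : Continuous (fun r : ℝ => Complex.exp (r * I) • x 0) := by fun_prop
  have hnear : ∀ᶠ r : ℝ in 𝓝 (0 : ℝ), Complex.exp ((r : ℂ) * I) • x 0 ∈ U₂ := by
    refine hcont.continuousAt (hU₂.mem_nhds ?_)
    simpa using hγ ⟨0, rfl⟩
  obtain ⟨η, hη, hball⟩ := Metric.eventually_nhds_iff.1 hnear
  obtain ⟨N, _, hN⟩ := Pool.Agent.W410.TB.Arc.main s₀ η hη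
  have hex : ∃ (k : ℕ) (j : ℤ), |(k : ℝ) * θ - s₀ - 2 * Real.pi * (j : ℝ)| < η := by
    by_contra hcon
    push Not at hcon
    obtain ⟨d, hd, _, j, hj⟩ := hN θ hcon
    exact hinf d hd j hj
  obtain ⟨k, j, hkj⟩ := hex
  set r : ℝ := s₀ - k * θ + 2 * Real.pi * j with hr
  have hr0 : dist r 0 < η := by
    rw [Real.dist_eq, sub_zero, hr, ← abs_neg]
    convert hkj using 2; ring
  have hmem := hball hr0
  have hsol : IsSol m Set.univ (fun t => Complex.exp (s₀ * I) • x (t + -(k * τ))) :=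
    (hx.shift (-(k * τ))).smul (norm_expI s₀)
  have hit : ∀ t, x (t + k * τ) = Complex.exp (θ * I) ^ k • x t := iter_smul hc k
  have hpow : Complex.exp (θ * I) ^ k = Complex.exp ((k * θ : ℝ) * I) := by
    rw [← Complex.exp_nat_mul]; push_cast; ring_nf
  have h0 : Complex.exp (s₀ * I) • x (0 + -(k * τ)) = Complex.exp (r * I) • x 0 := by
    have h1 := hit (0 + -(k * τ))
    rw [zero_add, neg_add_cancel, hpow] at h1
    rw [zero_add, h1, smul_smul, hr]
    congr 1
    rw [← Complex.exp_add]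
    have : ((s₀ - k * θ + 2 * Real.pi * j : ℝ) : ℂ) * I + ((k * θ : ℝ) : ℂ) * I =
      s₀ * I + j * (2 * Real.pi * I) := by push_cast; ring
    rw [this, Complex.exp_add, Complex.exp_int_mul_two_pi_mul_I, mul_one]
  have hfin := hstab _ (hsol.restrict _) (by have h5 := hmem; rw [← h0] at h5; exact h5) (k * τ)
    (mul_nonneg (Nat.cast_nonneg k) hτ.le)
  apply hfin
  simp

/-- The angles of the rotations that preserve the orbit of `x`. -/
def angGroup {x : ℝ → Ph n} (hx : IsSol m Set.univ x) : AddSubgroup ℝ where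
  carrier := {s | Complex.exp (s * I) • x 0 ∈ Set.range x}
  zero_mem' := ⟨0, by simp⟩
  add_mem' := by
    rintro s t ⟨u, hu⟩ ⟨v, hv⟩
    have h := smul_prop hx (norm_expI t) hv u
    rw [add_zero, hu, smul_smul, ← Complex.exp_add] at h
    refine ⟨u + v, ?_⟩
    rw [h]
    congr 2
    push_cast; ring
  neg_mem' := by
    rintro s ⟨u, hu⟩
    have h := smul_prop hx (norm_expI s) hu (-u)
    rw [neg_add_cancel, add_zero] at h
    refine ⟨-u, ?_⟩
    rw [h, smul_smul, ← Complex.exp_add]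
    have : ((-s : ℝ) : ℂ) * I + s * I = 0 := by push_cast; ring
    rw [this]; simp

theorem angGroup_orbit {x : ℝ → Ph n} (hx : IsSol m Set.univ x) {s : ℝ} (hs : s ∈ angGroup hx) (t : ℝ) :
    Complex.exp (s * I) • x t ∈ Set.range x := by
  obtain ⟨u, hu⟩ := hs
  have h := smul_prop hx (norm_expI s) hu t
  rw [add_zero] at h
  exact ⟨t + u, h⟩

/-- A multiple of a real number that is not a multiple of `α` comes modulo `α` into the middle third. -/
theorem middle_third {α θ : ℝ} (hα : 0 < α) (h : ∀ j : ℤ, θ ≠ j * α) :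
    ∃ (k : ℕ) (j : ℤ), α / 3 ≤ k * θ - j * α ∧ k * θ - j * α ≤ 2 * α / 3 := by
  -- reduce modulo `α`
  set j₀ : ℤ := round (θ / α) with hj₀
  set r : ℝ := θ - j₀ * α with hr
  have hr1 : |r| ≤ α / 2 := by
    have h1 := abs_sub_round (θ / α)
    have h2 : r = (θ / α - round (θ / α)) * α := by
      rw [hr, sub_mul, div_mul_cancel₀ _ hα.ne']
    rw [h2, abs_mul, abs_of_pos hα]
    nlinarith
  have hr0 : r ≠ 0 := by
    intro h0
    exact h j₀ (by linarith)
  have hpos : 0 < |r| := abs_pos.2 hr0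
  by_cases hbig : α / 3 ≤ |r|
  · rcases lt_or_gt_of_ne hr0 with hneg | hpos'
    · rw [abs_of_neg hneg] at hbig hr1
      refine ⟨1, j₀ - 1, ?_, ?_⟩ <;> push_cast <;> rw [hr] at * <;> linarith
    · rw [abs_of_pos hpos'] at hbig hr1
      refine ⟨1, j₀, ?_, ?_⟩ <;> push_cast <;> rw [hr] at * <;> linarith
  · push Not at hbig
    set k : ℕ := ⌈α / 3 / |r|⌉₊ with hk
    have k1 : α / 3 ≤ k * |r| := by
      have := Nat.le_ceil (α / 3 / |r|)
      rwa [div_le_iff₀ hpos] at this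
    have k2 : k * |r| < α / 3 + |r| := by
      have h1 : (k : ℝ) < α / 3 / |r| + 1 := Nat.ceil_lt_add_one (by positivity)
      have h2 := mul_lt_mul_of_pos_right h1 hpos
      rw [add_mul, one_mul, div_mul_cancel₀ _ hpos.ne'] at h2
      exact h2
    have hθ : θ = r + j₀ * α := by rw [hr]; ring
    rcases lt_or_gt_of_ne hr0 with hneg | hpos'
    · rw [abs_of_neg hneg] at *
      refine ⟨k, k * j₀ - 1, ?_, ?_⟩ <;> push_cast <;> rw [hθ] <;> nlinarith
    · rw [abs_of_pos hpos'] at *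
      refine ⟨k, k * j₀, ?_, ?_⟩ <;> push_cast <;> rw [hθ] <;> nlinarith

/-- A periodic Lyapunov stable orbit that is not invariant under all rotations locks the rotations near it. -/
theorem locked_of_periodic {x : ℝ → Ph n} (hx : IsSol m Set.univ x) {s₀ : ℝ}
    (hs₀ : Complex.exp (s₀ * I) • x 0 ∉ Set.range x) {P : ℝ} (hP : 0 < P)
    (hper : ∀ t, x (t + P) = x t) (hst : LyapunovStable m (Set.range x)) :
    ∃ K : ℕ, 1 ≤ K ∧
      (∀ c : ℂ, ‖c‖ = 1 → ((∀ t, c • x t ∈ Set.range x) ↔ c ^ K = 1)) ∧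
      ∃ U : Set (Ph n), IsOpen U ∧ Set.range x ⊆ U ∧
      ∀ y : ℝ → Ph n, IsSol m (Set.Ici 0) y → y 0 ∈ U → ∀ c : ℂ, ‖c‖ = 1 →
        (∀ z ∈ closure (y '' Set.Ici 0), c • z ∈ closure (y '' Set.Ici 0)) → c ^ K = 1 := by
  have hcomp : IsCompact (Set.range x) := by
    have : Set.range x = x '' Set.Icc 0 P := by
      ext z
      constructor
      · rintro ⟨t, rfl⟩
        obtain ⟨t', ht', h⟩ := Function.Periodic.exists_mem_Ico₀ (f := x) hper hP t
        exact ⟨t', ⟨ht'.1, ht'.2.le⟩, h.symm⟩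
      · rintro ⟨t, _, rfl⟩
        exact ⟨t, rfl⟩
    rw [this]
    exact isCompact_Icc.image hx.continuous
  -- the group of angles is cyclic
  have hclosed : IsClosed (angGroup hx : Set ℝ) := by
    have hc : Continuous (fun s : ℝ => Complex.exp ((s : ℂ) * I) • x 0) := by fun_prop
    exact hcomp.isClosed.preimage hc
  obtain ⟨a, ha⟩ : ∃ a, angGroup hx = AddSubgroup.closure {a} := by
    rcases AddSubgroup.dense_or_cyclic (angGroup hx) with hd | h
    · exfalso
      have h1 := hd.closure_eq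
      rw [hclosed.closure_eq] at h1
      have h2 : s₀ ∈ (angGroup hx : Set ℝ) := by rw [h1]; trivial
      exact hs₀ h2
    · exact h
  have h2pi : 2 * Real.pi ∈ angGroup hx := by
    refine ⟨0, ?_⟩
    have : ((2 * Real.pi : ℝ) : ℂ) * I = 2 * Real.pi * I := by push_cast; ring
    rw [this, Complex.exp_two_pi_mul_I, one_smul]
  set α : ℝ := |a| with hα
  have hmem : ∀ s : ℝ, s ∈ angGroup hx ↔ ∃ j : ℤ, s = j * α := by
    intro s
    rw [ha, AddSubgroup.mem_closure_singleton]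
    rcases abs_choice a with h | h
    · constructor
      · rintro ⟨j, hj⟩; exact ⟨j, by rw [hα, h, ← hj]; simp⟩
      · rintro ⟨j, hj⟩; exact ⟨j, by rw [hj, hα, h]; simp⟩
    · constructor
      · rintro ⟨j, hj⟩; exact ⟨-j, by rw [hα, h, ← hj]; push_cast; simp⟩
      · rintro ⟨j, hj⟩; exact ⟨-j, by rw [hj, hα, h]; push_cast; simp⟩
  obtain ⟨K', hK'⟩ := (hmem _).1 h2pi
  have hpi := Real.pi_pos
  have hα0 : 0 < α := by
    rcases (abs_nonneg a).lt_or_eq with h | h
    · exact h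
    · exfalso
      rw [hα, ← h, mul_zero] at hK'
      linarith
  have hK0 : 0 < K' := by
    by_contra hcon
    push Not at hcon
    have : (K' : ℝ) ≤ 0 := by exact_mod_cast hcon
    nlinarith
  obtain ⟨K, rfl⟩ := Int.eq_ofNat_of_zero_le hK0.le
  have hK1 : 1 ≤ K := by omega
  have hK'' : 2 * Real.pi = (K : ℝ) * α := by simpa using hK'
  -- powers
  have hpowK : ∀ j : ℤ, Complex.exp (((j * α : ℝ) : ℂ) * I) ^ K = 1 := by
    intro j
    rw [← Complex.exp_nat_mul]
    have e : (K : ℂ) * (((j * α : ℝ) : ℂ) * I) = j * (2 * Real.pi * I) := by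
      have := congrArg (fun r : ℝ => (r : ℂ) * (j * I)) hK''
      push_cast at this ⊢
      linear_combination -this
    rw [e, Complex.exp_int_mul_two_pi_mul_I]
  have hroot : ∀ θ : ℝ, Complex.exp ((θ : ℂ) * I) ^ K = 1 → ∃ j : ℤ, θ = j * α := by
    intro θ h
    rw [← Complex.exp_nat_mul, Complex.exp_eq_one_iff] at h
    obtain ⟨j, hj⟩ := h
    refine ⟨j, ?_⟩
    have h1 : (K : ℝ) * θ = j * (2 * Real.pi) := by
      have := congrArg Complex.im hj
      simpa using this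
    have hKpos : (0 : ℝ) < K := by exact_mod_cast hK1
    have h2 : (K : ℝ) * θ = K * (j * α) := by rw [h1, hK'']; ring
    exact mul_left_cancel₀ hKpos.ne' h2
  refine ⟨K, hK1, ?_, ?_⟩
  · intro c hc
    obtain ⟨θ, rfl⟩ := exists_angle hc
    constructor
    · intro h
      obtain ⟨j, hj⟩ := (hmem θ).1 (h 0)
      rw [hj]; exact hpowK j
    · intro h t
      obtain ⟨j, hj⟩ := hroot θ h
      exact angGroup_orbit hx ((hmem θ).2 ⟨j, hj⟩) t
  -- the compact set of the rotated copies by angles in the middle third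
  set K₂ : Set (Ph n) := (fun p : ℝ × Ph n => Complex.exp ((p.1 : ℂ) * I) • p.2) ''
    (Set.Icc (α / 3) (2 * α / 3) ×ˢ Set.range x) with hK₂
  have hcomp2 : IsCompact K₂ := (isCompact_Icc.prod hcomp).image (by fun_prop)
  have hdisj : Disjoint (Set.range x) K₂ := by
    rw [Set.disjoint_left]
    rintro _ ⟨t, rfl⟩ ⟨⟨s, _⟩, ⟨hs, ⟨u, rfl⟩⟩, h⟩
    have h' : x t = Complex.exp ((s : ℂ) * I) • x u := h.symm
    have h1 := smul_prop hx (norm_expI s) h' (-u)
    rw [neg_add_cancel] at h1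
    have h2 : s ∈ angGroup hx := ⟨-u + t, h1⟩
    obtain ⟨j, hj⟩ := (hmem s).1 h2
    simp only [Set.mem_Icc] at hs
    have hj1 : 0 < j := by
      by_contra hcon
      push Not at hcon
      have : (j : ℝ) ≤ 0 := by exact_mod_cast hcon
      nlinarith [hs.1]
    have hj2 : j < 1 := by
      by_contra hcon
      push Not at hcon
      have : (1 : ℝ) ≤ j := by exact_mod_cast hcon
      nlinarith [hs.2]
    omega
  obtain ⟨δ, hδ, hdδ⟩ := hdisj.exists_thickenings hcomp hcomp2.isClosed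
  obtain ⟨U, hU, hγU, hstab⟩ := hst (Metric.thickening (δ / 2) (Set.range x))
    Metric.isOpen_thickening (Metric.self_subset_thickening (by positivity) _)
  refine ⟨U, hU, hγU, ?_⟩
  intro y hy hy0 c hc hinv
  obtain ⟨θ, rfl⟩ := exists_angle hc
  have hY : closure (y '' Set.Ici 0) ⊆ Metric.thickening δ (Set.range x) := by
    intro z hz
    obtain ⟨w, ⟨t, ht, rfl⟩, hw⟩ := Metric.mem_closure_iff.1 hz (δ / 2) (by positivity)
    obtain ⟨p, hp, hp2⟩ := Metric.mem_thickening_iff.1 (hstab y hy hy0 t ht)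
    refine Metric.mem_thickening_iff.2 ⟨p, hp, ?_⟩
    calc dist z p ≤ dist z (y t) + dist (y t) p := dist_triangle _ _ _
      _ < δ / 2 + δ / 2 := add_lt_add hw hp2
      _ = δ := by ring
  have hy0Y : y 0 ∈ closure (y '' Set.Ici 0) := subset_closure ⟨0, Set.mem_Ici.2 le_rfl, rfl⟩
  have hpowY : ∀ k : ℕ, Complex.exp (θ * I) ^ k • y 0 ∈ closure (y '' Set.Ici 0) := by
    intro k
    induction k with
    | zero => simpa using hy0Y
    | succ k ih =>
      rw [pow_succ', ← smul_smul]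
      exact hinv _ ih
  by_contra hne
  have hθ : ∀ j : ℤ, θ ≠ j * α := by
    intro j hj
    apply hne
    rw [hj]; exact hpowK j
  obtain ⟨k, j, hkj1, hkj2⟩ := middle_third hα0 hθ
  -- rotate `γ` by the symmetry `- j α`
  obtain ⟨p, hp, hp2⟩ := Metric.mem_thickening_iff.1 (hY hy0Y)
  obtain ⟨u, rfl⟩ := hp
  have hsym : Complex.exp (((j * α : ℝ) : ℂ) * I) • x u ∈ Set.range x :=
    angGroup_orbit hx ((hmem _).2 ⟨j, rfl⟩) u
  have hk : Complex.exp ((θ : ℂ) * I) ^ k =
      Complex.exp (((k * θ - j * α : ℝ) : ℂ) * I) * Complex.exp (((j * α : ℝ) : ℂ) * I) := by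
    rw [← Complex.exp_add, ← Complex.exp_nat_mul]
    congr 1
    push_cast; ring
  have hck : ‖Complex.exp (θ * I) ^ k‖ = 1 := by rw [norm_pow, norm_expI, one_pow]
  have hz2 : Complex.exp (θ * I) ^ k • y 0 ∈ Metric.thickening δ K₂ := by
    refine Metric.mem_thickening_iff.2 ⟨Complex.exp (θ * I) ^ k • x u, ?_, ?_⟩
    · refine ⟨(k * θ - j * α, Complex.exp (((j * α : ℝ) : ℂ) * I) • x u), ⟨⟨hkj1, hkj2⟩, hsym⟩, ?_⟩
      simp only
      rw [hk, smul_smul]
    · rw [dist_eq_norm, ← smul_sub, norm_smul, hck, one_mul, ← dist_eq_norm]; exact hp2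
  exact (Set.disjoint_left.1 hdδ) (hY (hpowY k)) hz2

end Pool.Agent.W821.TB
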