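import Pool.Agent.W821.TB.Final

set_option autoImplicit false

namespace Pool.Agent.W821.TB

open Complex Finset Filter Topology ComplexConjugate

variable {n : ℕ} {m : Fin n → ℝ}

/-- real inner product -/
noncomputable def ip (a b : ℂ) : ℝ := (conj a * b).re

theorem ip_eq (a b : ℂ) : ip a b = a.re * b.re + a.im * b.im := by
  unfold ip
  simp only [Complex.mul_re, Complex.conj_re, Complex.conj_im]; ring

theorem ip_self (a : ℂ) : ip a a = ‖a‖ ^ 2 := by
  rw [ip_eq, ← Complex.normSq_eq_norm_sq, Complex.normSq_apply]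

/-- potential function (positive) -/
noncomputable def upot (m : Fin n → ℝ) (q : Fin n → ℂ) : ℝ :=
  (∑ a, ∑ b ∈ univ.erase a, m a * m b / ‖q b - q a‖) / 2

/-- energy -/
noncomputable def energy (m : Fin n → ℝ) (z : Ph n) : ℝ :=
  (∑ a, m a * ‖z.2 a‖ ^ 2) / 2 - upot m z.1

theorem hasDerivAt_ip {f g : ℝ → ℂ} {f' g' : ℂ} {t : ℝ} (hf : HasDerivAt f f' t)
    (hg : HasDerivAt g g' t) : HasDerivAt (fun s => ip (f s) (g s)) (ip f' (g t) + ip (f t) g') t := by
  have := hasDerivAt_rec ((hasDerivAt_conj hf).mul hg)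
  refine this.congr_deriv ?_
  unfold ip
  rw [Complex.add_re]

theorem hasDerivAt_inv_norm {z : ℝ → ℂ} {z' : ℂ} {t : ℝ} (hz : HasDerivAt z z' t) (h0 : z t ≠ 0) :
    HasDerivAt (fun s => 1 / ‖z s‖) (-(ip (z t) z') / ‖z t‖ ^ 3) t := by
  have hpos : 0 < ‖z t‖ := norm_pos_iff.2 h0
  have h1 : HasDerivAt (fun s => ‖z s‖ ^ 2) (2 * ip (z t) z') t := by
    have h := hasDerivAt_ip hz hz
    have e : (fun s => ip (z s) (z s)) = fun s => ‖z s‖ ^ 2 := by funext s; exact ip_self _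
    rw [e] at h
    refine h.congr_deriv ?_
    rw [ip_eq, ip_eq]; ring
  have h2 := h1.sqrt (by positivity)
  have e2 : (fun s => √(‖z s‖ ^ 2)) = fun s => ‖z s‖ := by
    funext s; exact Real.sqrt_sq (norm_nonneg _)
  rw [e2, Real.sqrt_sq hpos.le] at h2
  have h3 := (hasDerivAt_const t (1 : ℝ)).div h2 hpos.ne'
  refine h3.congr_deriv ?_
  field_simp
  ring

/-- double sums over ordered pairs can be antisymmetrised -/
theorem sum_swap (f : Fin n → Fin n → ℝ) :
    ∑ a, ∑ b ∈ univ.erase a, f a b = ∑ a, ∑ b ∈ univ.erase a, f b a := by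
  have h : ∀ g : Fin n → Fin n → ℝ, ∑ a, ∑ b ∈ univ.erase a, g a b =
      ∑ a, ∑ b, if a ≠ b then g a b else 0 := by
    intro g
    refine Finset.sum_congr rfl fun a _ => ?_
    rw [← Finset.sum_filter]
    refine Finset.sum_congr ?_ fun _ _ => rfl
    ext b
    simp [eq_comm]
  rw [h, h, Finset.sum_comm]
  refine Finset.sum_congr rfl fun a _ => Finset.sum_congr rfl fun b _ => ?_
  simp only [ne_comm]

theorem ip_acc (q : Fin n → ℂ) (a : Fin n) (w : ℂ) :
    ip (acc m q a) w = ∑ b ∈ univ.erase a, m b / ‖q b - q a‖ ^ 3 * ip (q b - q a) w := by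
  unfold acc ip
  rw [map_sum, Finset.sum_mul, Complex.re_sum]
  refine Finset.sum_congr rfl fun b _ => ?_
  rw [map_mul, Complex.conj_ofReal, mul_assoc, Complex.re_ofReal_mul]

theorem hasDerivAt_upot {q : ℝ → Fin n → ℂ} {ξ : Fin n → ℂ} {t : ℝ}
    (hq : ∀ a, HasDerivAt (fun s => q s a) (ξ a) t) (hne : ∀ a b, a ≠ b → q t a ≠ q t b) :
    HasDerivAt (fun s => upot m (q s)) (∑ a, m a * ip (acc m (q t) a) (ξ a)) t := by
  have h1 : ∀ a, ∀ b ∈ univ.erase a, HasDerivAt (fun s => m a * m b / ‖q s b - q s a‖)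
      (m a * m b * (-(ip (q t b - q t a) (ξ b - ξ a)) / ‖q t b - q t a‖ ^ 3)) t := by
    intro a b hb
    have hz : HasDerivAt (fun s => q s b - q s a) (ξ b - ξ a) t := (hq b).sub (hq a)
    have h0 : q t b - q t a ≠ 0 := sub_ne_zero.2 (hne b a (Finset.ne_of_mem_erase hb))
    have := (hasDerivAt_inv_norm hz h0).const_mul (m a * m b)
    have e : (fun s => m a * m b * (1 / ‖q s b - q s a‖)) = fun s => m a * m b / ‖q s b - q s a‖ := by
      funext s; ring
    rw [e] at this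
    exact this
  have h2 : HasDerivAt (fun s => ∑ a, ∑ b ∈ univ.erase a, m a * m b / ‖q s b - q s a‖)
      (∑ a, ∑ b ∈ univ.erase a,
        m a * m b * (-(ip (q t b - q t a) (ξ b - ξ a)) / ‖q t b - q t a‖ ^ 3)) t :=
    HasDerivAt.fun_sum fun a _ => HasDerivAt.fun_sum fun b hb => h1 a b hb
  have h3 := h2.div_const 2
  refine h3.congr_deriv ?_
  have e1 : ∑ a, m a * ip (acc m (q t) a) (ξ a) =
      ∑ a, ∑ b ∈ univ.erase a, m a * m b / ‖q t b - q t a‖ ^ 3 * ip (q t b - q t a) (ξ a) := by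
    refine Finset.sum_congr rfl fun a _ => ?_
    rw [ip_acc, Finset.mul_sum]
    refine Finset.sum_congr rfl fun b _ => ?_
    ring
  have e2 : ∑ a, ∑ b ∈ univ.erase a, m a * m b / ‖q t b - q t a‖ ^ 3 * ip (q t b - q t a) (ξ a) =
      ∑ a, ∑ b ∈ univ.erase a, -(m a * m b / ‖q t b - q t a‖ ^ 3 * ip (q t b - q t a) (ξ b)) := by
    rw [sum_swap]
    refine Finset.sum_congr rfl fun a _ => Finset.sum_congr rfl fun b _ => ?_
    rw [norm_sub_rev (q t a) (q t b), ip_eq, ip_eq]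
    simp only [Complex.sub_re, Complex.sub_im]
    ring
  have e3 : ∑ a, ∑ b ∈ univ.erase a,
        m a * m b * (-(ip (q t b - q t a) (ξ b - ξ a)) / ‖q t b - q t a‖ ^ 3) =
      (∑ a, ∑ b ∈ univ.erase a, m a * m b / ‖q t b - q t a‖ ^ 3 * ip (q t b - q t a) (ξ a)) +
      ∑ a, ∑ b ∈ univ.erase a, -(m a * m b / ‖q t b - q t a‖ ^ 3 * ip (q t b - q t a) (ξ b)) := by
    rw [← Finset.sum_add_distrib]
    refine Finset.sum_congr rfl fun a _ => ?_
    rw [← Finset.sum_add_distrib]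
    refine Finset.sum_congr rfl fun b _ => ?_
    simp only [ip_eq, Complex.sub_re, Complex.sub_im]
    ring
  rw [e1, e3, ← e2]
  ring

/-- Euler's identity: the virial is minus the potential function. -/
theorem virial {q : Fin n → ℂ} (hne : ∀ a b, a ≠ b → q a ≠ q b) :
    ∑ a, m a * ip (acc m q a) (q a) = -upot m q := by
  have e1 : ∑ a, m a * ip (acc m q a) (q a) =
      ∑ a, ∑ b ∈ univ.erase a, m a * m b / ‖q b - q a‖ ^ 3 * ip (q b - q a) (q a) := by
    refine Finset.sum_congr rfl fun a _ => ?_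
    rw [ip_acc, Finset.mul_sum]
    refine Finset.sum_congr rfl fun b _ => ?_
    ring
  have e2 : ∑ a, ∑ b ∈ univ.erase a, m a * m b / ‖q b - q a‖ ^ 3 * ip (q b - q a) (q a) =
      ∑ a, ∑ b ∈ univ.erase a, -(m a * m b / ‖q b - q a‖ ^ 3 * ip (q b - q a) (q b)) := by
    rw [sum_swap]
    refine Finset.sum_congr rfl fun a _ => Finset.sum_congr rfl fun b _ => ?_
    rw [norm_sub_rev (q a) (q b), ip_eq, ip_eq]
    simp only [Complex.sub_re, Complex.sub_im]
    ring
  have e3 : (∑ a, ∑ b ∈ univ.erase a, m a * m b / ‖q b - q a‖ ^ 3 * ip (q b - q a) (q a)) +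
      ∑ a, ∑ b ∈ univ.erase a, -(m a * m b / ‖q b - q a‖ ^ 3 * ip (q b - q a) (q b)) =
      -∑ a, ∑ b ∈ univ.erase a, m a * m b / ‖q b - q a‖ := by
    rw [← Finset.sum_add_distrib, ← Finset.sum_neg_distrib]
    refine Finset.sum_congr rfl fun a _ => ?_
    rw [← Finset.sum_add_distrib, ← Finset.sum_neg_distrib]
    refine Finset.sum_congr rfl fun b hb => ?_
    have h0 : q b - q a ≠ 0 := sub_ne_zero.2 (hne b a (Finset.ne_of_mem_erase hb))
    have hpos : 0 < ‖q b - q a‖ := norm_pos_iff.2 h0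
    have hs : ip (q b - q a) (q a) - ip (q b - q a) (q b) = -‖q b - q a‖ ^ 2 := by
      rw [← ip_self]; simp only [ip_eq, Complex.sub_re, Complex.sub_im]; ring
    have : m a * m b / ‖q b - q a‖ ^ 3 * ip (q b - q a) (q a) +
        -(m a * m b / ‖q b - q a‖ ^ 3 * ip (q b - q a) (q b)) =
        m a * m b / ‖q b - q a‖ ^ 3 * (ip (q b - q a) (q a) - ip (q b - q a) (q b)) := by ring
    rw [this, hs]
    field_simp
  unfold upot
  rw [e1]
  linarith

end Pool.Agent.W821.TB
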