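import Pool.Agent.W821.TB.Fam

set_option autoImplicit false

namespace Pool.Agent.W821.TB

open Complex Finset Filter Topology ComplexConjugate

variable {n : ℕ} {m : Fin n → ℝ}

theorem finite_roots (K : ℕ) (hK : 1 ≤ K) : {z : ℂ | z ^ K = 1}.Finite := by
  have h : {z : ℂ | z ^ K = 1} ⊆ ((Polynomial.nthRoots K (1 : ℂ)).toFinset : Set ℂ) := by
    intro z hz
    simp only [Finset.mem_coe, Multiset.mem_toFinset]
    exact (Polynomial.mem_nthRoots (by omega)).2 hz
  exact (Finset.finite_toSet _).subset h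

theorem rigid (hn : 2 ≤ n) (hm : ∀ a, 0 < m a) {y : ℝ → ℝ → Ph n}
    (hC : ContDiff ℝ 2 (fun p : ℝ × ℝ => y p.1 p.2)) (hy : ∀ s, IsSol m Set.univ (y s))
    {S : ℝ → ℝ} (hS : Differentiable ℝ S) (hS0 : ∀ s, 0 < S s) (hper : ∀ s, DistPer (y s) (S s))
    (hne : ¬ IsRelEq (y 0)) (hst : LyapunovStable m (Set.range (y 0))) :
    ∃ c : ℂ, ‖c‖ = 1 ∧ ∃ ε : ℝ, 0 < ε ∧ ∀ s : ℝ, |s| < ε →
      (∀ t, y s (t + 2 * S s) = c • y s t) ∧
      S s ^ 2 * energy m (y s 0) ^ 3 = S 0 ^ 2 * energy m (y 0 0) ^ 3 := by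
  have hG := Pool.Agent.W827.TB.Gram.main
  rcases final hn hm (hy 0) (hS0 0) (hper 0) hst with h | ⟨K, hK, _, U, hU, hγ, hl1, hl2⟩
  · exact absurd h hne
  have hcont : Continuous (fun p : ℝ × ℝ => y p.1 p.2) := hC.continuous
  have hc0 : Continuous (fun s => y s 0) :=
    hcont.comp (by fun_prop : Continuous (fun s : ℝ => (s, (0 : ℝ))))
  have hcS : Continuous (fun s => y s (2 * S s)) :=
    hcont.comp (continuous_id.prodMk (continuous_const.mul hS.continuous))
  have hmemU : ∀ᶠ s in 𝓝 (0 : ℝ), y s 0 ∈ U :=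
    hc0.continuousAt (hU.mem_nhds (hγ ⟨0, rfl⟩))
  -- the rotations
  choose c hcn hc using fun s => rot_of_distPer hG hn hm (hy s) (hper s)
  have hcK : ∀ s, y s 0 ∈ U → c s ^ K = 1 := fun s hs =>
    hl1 (y s) ((hy s).restrict _) hs (c s) (hcn s)
      (closure_invariant (by have := hS0 s; positivity) (hc s))
  obtain ⟨b, hb⟩ := exists_ne_zero hn ((hy 0).mem 0)
  have hposc : Continuous (fun s => (y s 0).1 b) := (continuous_apply b).comp (continuous_fst.comp hc0)
  have hposS : Continuous (fun s => (y s (2 * S s)).1 b) :=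
    (continuous_apply b).comp (continuous_fst.comp hcS)
  have hbne : ∀ᶠ s in 𝓝 (0 : ℝ), (y s 0).1 b ≠ 0 :=
    hposc.continuousAt.eventually_ne hb
  have hg : ContinuousAt (fun s => (y s (2 * S s)).1 b / (y s 0).1 b) 0 :=
    hposS.continuousAt.div hposc.continuousAt hb
  have hcg : ∀ s, (y s 0).1 b ≠ 0 → (y s (2 * S s)).1 b / (y s 0).1 b = c s := by
    intro s hs
    have h1 := hc s 0
    rw [zero_add] at h1
    rw [h1, div_eq_iff hs]
    simp
  have hfin : IsClosed ({z : ℂ | z ^ K = 1} \ {c 0}) := ((finite_roots K hK).sdiff).isClosed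
  have hev : ∀ᶠ s in 𝓝 (0 : ℝ),
      (y s (2 * S s)).1 b / (y s 0).1 b ∈ ({z : ℂ | z ^ K = 1} \ {c 0})ᶜ := by
    refine hg (hfin.isOpen_compl.mem_nhds ?_)
    have h0 := hcg 0 hb
    change (y 0 (2 * S 0)).1 b / (y 0 0).1 b ∈ ({z : ℂ | z ^ K = 1} \ {c 0})ᶜ
    rw [h0]
    simp
  have hall : ∀ᶠ s in 𝓝 (0 : ℝ), y s 0 ∈ U ∧ c s = c 0 := by
    filter_upwards [hmemU, hbne, hev] with s h1 h2 h3
    refine ⟨h1, ?_⟩
    rw [hcg s h2] at h3
    by_contra hne'
    exact h3 ⟨hcK s h1, hne'⟩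
  obtain ⟨ε, hε, hball⟩ := Metric.eventually_nhds_iff.1 hall
  refine ⟨c 0, hcn 0, ε, hε, fun s hs => ⟨?_, ?_⟩⟩
  · intro t
    have h1 := (hball (by rw [Real.dist_eq, sub_zero]; exact hs : dist s 0 < ε)).2
    rw [← h1]
    exact hc s t
  · -- the third law
    have hper2 : ∀ s, |s| < ε → y s (2 * K * S s) = y s 0 := by
      intro s hs
      have h1 := (hball (by rw [Real.dist_eq, sub_zero]; exact hs : dist s 0 < ε)).1
      have h2 := hl2 (y s) (hy s) h1 (S s) (hS0 s) (hper s) 0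
      rw [zero_add] at h2
      exact h2
    have hopen : IsOpen (Metric.ball (0 : ℝ) ε) := Metric.isOpen_ball
    have hder : ∀ s ∈ Metric.ball (0 : ℝ) ε,
        HasDerivAt (fun s => (2 * K * S s) ^ 2 * energy m (y s 0) ^ 3) 0 s := by
      intro s hs
      refine period_energy hC hy (P := fun s => 2 * K * S s) ((hS s).hasDerivAt.const_mul _) ?_
      filter_upwards [hopen.mem_nhds hs] with u hu
      refine hper2 u ?_
      rw [Metric.mem_ball, Real.dist_eq, sub_zero] at hu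
      exact hu
    have hconst := hopen.is_const_of_deriv_eq_zero (convex_ball (0 : ℝ) ε).isPreconnected
      (fun s hs => (hder s hs).differentiableAt.differentiableWithinAt)
      (fun s hs => (hder s hs).deriv)
      (by rw [Metric.mem_ball, Real.dist_eq, sub_zero]; exact hs : s ∈ Metric.ball (0 : ℝ) ε)
      (Metric.mem_ball_self hε)
    have hKpos : (0 : ℝ) < K := by exact_mod_cast hK
    have h4 : (4 * (K : ℝ) ^ 2) * (S s ^ 2 * energy m (y s 0) ^ 3) =
        (4 * (K : ℝ) ^ 2) * (S 0 ^ 2 * energy m (y 0 0) ^ 3) := by linear_combination hconst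
    exact mul_left_cancel₀ (by positivity) h4

end Pool.Agent.W821.TB
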