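import Pool.Agent.W821.TB.Lem

set_option autoImplicit false

namespace Pool.Agent.W821.TB

open Complex Finset Filter Topology ComplexConjugate

variable {n : ℕ} {m : Fin n → ℝ}

theorem quotient_u (hn : 2 ≤ n) (hm : ∀ a, 0 < m a) {z : Ph n} (hz : z ∈ phaseSpace m)
    {P : Fin n → ℂ} {u : ℂ} (h : ∀ a, P a = u * z.1 a) :
    (∑ a, (m a : ℂ) * (P a * conj (z.1 a))) / (mom m z : ℂ) = u := by
  have hp : (mom m z : ℂ) ≠ 0 := by exact_mod_cast (mom_pos hn hm hz).ne'
  rw [div_eq_iff hp]
  unfold mom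
  push_cast
  rw [Finset.mul_sum]
  refine Finset.sum_congr rfl fun a _ => ?_
  rw [h a, Complex.normSq_eq_conj_mul_self]; ring

theorem quotient_w (hn : 2 ≤ n) (hm : ∀ a, 0 < m a) {z : Ph n} (hz : z ∈ phaseSpace m)
    {P : Fin n → ℂ} {w : ℂ} (h : ∀ a, P a = w * conj (z.1 a)) :
    (∑ a, (m a : ℂ) * (P a * z.1 a)) / (mom m z : ℂ) = w := by
  have hp : (mom m z : ℂ) ≠ 0 := by exact_mod_cast (mom_pos hn hm hz).ne'
  rw [div_eq_iff hp]
  unfold mom
  push_cast
  rw [Finset.mul_sum]
  refine Finset.sum_congr rfl fun a _ => ?_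
  rw [h a, Complex.normSq_eq_conj_mul_self]; ring

/-- Solutions with periodic mutual distances are periodic up to a rotation, after twice the period of the
distances. -/
theorem rot_of_distPer (hG : GramStmt) (hn : 2 ≤ n) (hm : ∀ a, 0 < m a) {x : ℝ → Ph n}
    (hx : IsSol m Set.univ x) {T : ℝ} (hT : DistPer x T) :
    ∃ c : ℂ, ‖c‖ = 1 ∧ ∀ t, x (t + 2 * T) = c • x t := by
  set Q : ℝ → Ph n := fun t => x (t + T) with hQdef
  have hQ : IsSol m Set.univ Q := hx.shift T
  have hang : ∀ t, ang m (Q t) = ang m (x t) := fun t => ang_const hx (t + T) t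
  have hgram : ∀ t, (∃ u : ℂ, ‖u‖ = 1 ∧ ∀ a, (Q t).1 a = u * (x t).1 a) ∨
      (∃ w : ℂ, ‖w‖ = 1 ∧ ∀ a, (Q t).1 a = w * conj ((x t).1 a)) := fun t =>
    hG n m hn hm (x t).1 (Q t).1 (hx.mem t).2.1 (hQ.mem t).2.1 (hx.mem t).1 (fun a b => hT t a b)
  have hmomne : ∀ t, (mom m (x t) : ℂ) ≠ 0 := fun t => by
    exact_mod_cast (mom_pos hn hm (hx.mem t)).ne'
  have hmomd : ∀ t, DifferentiableAt ℝ (fun s => (mom m (x s) : ℂ)) t := fun t =>
    ((mom_hasDeriv hx t).hasDerivAt.ofReal_comp).differentiableAt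
  -- the two candidate functions
  set U : ℝ → ℂ := fun t => (∑ a, (m a : ℂ) * ((Q t).1 a * conj ((x t).1 a))) / (mom m (x t) : ℂ) with hU
  set W : ℝ → ℂ := fun t => (∑ a, (m a : ℂ) * ((Q t).1 a * (x t).1 a)) / (mom m (x t) : ℂ) with hW
  have hUd : ∀ t, DifferentiableAt ℝ U t := by
    intro t
    refine DifferentiableAt.div ?_ (hmomd t) (hmomne t)
    refine DifferentiableAt.fun_sum fun a _ => ?_
    exact (((hasDerivAt_pos hQ t a).mul (hasDerivAt_conj (hasDerivAt_pos hx t a))).const_mul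
      (m a : ℂ)).differentiableAt
  have hWd : ∀ t, DifferentiableAt ℝ W t := by
    intro t
    refine DifferentiableAt.div ?_ (hmomd t) (hmomne t)
    refine DifferentiableAt.fun_sum fun a _ => ?_
    exact (((hasDerivAt_pos hQ t a).mul (hasDerivAt_pos hx t a)).const_mul
      (m a : ℂ)).differentiableAt
  -- rotation case on an open set
  have caseP : ∀ t₀, (∀ᶠ t in 𝓝 t₀, ∃ u : ℂ, ‖u‖ = 1 ∧ ∀ a, (Q t).1 a = u * (x t).1 a) →
      ∃ c : ℂ, ‖c‖ = 1 ∧ ∀ t, x (t + 2 * T) = c • x t := by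
    intro t₀ h
    have h2 : ∀ᶠ t in 𝓝 t₀, ‖U t‖ = 1 ∧ ∀ a, (Q t).1 a = U t * (x t).1 a := by
      refine h.mono fun t ht => ?_
      obtain ⟨u, hu, hu2⟩ := ht
      have : U t = u := quotient_u hn hm (hx.mem t) hu2
      rw [this]; exact ⟨hu, hu2⟩
    have h3 := caseA hn hm hx hQ (hang t₀) (hUd t₀).hasDerivAt h2
    have h4 : ∀ t, x (t + T) = U t₀ • x t := fun t => congrFun h3 t
    have h5 := h2.self_of_nhds.1
    refine ⟨U t₀ * U t₀, by rw [norm_mul, h5]; norm_num, fun t => ?_⟩
    have e : t + 2 * T = (t + T) + T := by ring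
    rw [e, h4, h4, smul_smul]
  by_cases hint : ∃ t₀, ∀ᶠ t in 𝓝 t₀, ∃ u : ℂ, ‖u‖ = 1 ∧ ∀ a, (Q t).1 a = u * (x t).1 a
  · obtain ⟨t₀, h⟩ := hint
    exact caseP t₀ h
  · rw [not_exists] at hint
    have hcl : IsClosed {t | ∀ a, (Q t).1 a = W t * conj ((x t).1 a)} := by
      rw [Set.ofPred_forall]
      refine isClosed_iInter fun a => isClosed_eq ?_ ?_
      · exact continuous_iff_continuousAt.2 fun t => (hasDerivAt_pos hQ t a).continuousAt
      · exact continuous_iff_continuousAt.2 fun t =>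
          ((hWd t).continuousAt).mul (hasDerivAt_conj (hasDerivAt_pos hx t a)).continuousAt
    have hN : ∀ t, ∀ a, (Q t).1 a = W t * conj ((x t).1 a) := by
      intro t
      have hf : ∃ᶠ s in 𝓝 t, s ∈ {t | ∀ a, (Q t).1 a = W t * conj ((x t).1 a)} := by
        have h1 := hint t
        rw [Filter.not_eventually] at h1
        refine h1.mono fun s hs => ?_
        rcases hgram s with h2 | ⟨w, hw, hw2⟩
        · exact absurd h2 hs
        · have : W s = w := quotient_w hn hm (hx.mem s) hw2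
          intro a
          rw [this]; exact hw2 a
      exact hcl.mem_of_frequently_of_tendsto hf tendsto_id
    have hWn : ∀ t, ‖W t‖ = 1 := by
      intro t
      obtain ⟨a, ha⟩ := exists_ne_zero hn (hx.mem t)
      have h1 := hN t a
      have h2 : ‖(Q t).1 a‖ = ‖(x t).1 a‖ := by
        rcases hgram t with ⟨u, hu, hu2⟩ | ⟨w, hw, hw2⟩
        · rw [hu2 a, norm_mul, hu, one_mul]
        · rw [hw2 a, norm_mul, hw, one_mul, Complex.norm_conj]
      rw [h1, norm_mul, Complex.norm_conj] at h2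
      have h3 : ‖(x t).1 a‖ ≠ 0 := norm_ne_zero_iff.2 ha
      exact mul_right_cancel₀ h3 (by rw [h2, one_mul])
    rcases caseB hn hm hx hQ hang hWd (fun t => ⟨hWn t, hN t⟩) (T := T) (fun t => rfl) with
      ⟨w, hw, h⟩ | h
    · refine ⟨1, by simp, fun t => ?_⟩
      have hww := conj_mul_self_of_norm hw
      have e : t + 2 * T = (t + T) + T := by ring
      have k1 : ∀ a, (x (t + 2 * T)).1 a = (x t).1 a := by
        intro a
        have a1 : (x (t + T + T)).1 a = w * conj ((x (t + T)).1 a) := (h (t + T) a).1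
        have a2 : (x (t + T)).1 a = w * conj ((x t).1 a) := (h t a).1
        rw [e, a1, a2, map_mul, Complex.conj_conj]
        linear_combination (x t).1 a * hww
      have k2 : ∀ a, (x (t + 2 * T)).2 a = (x t).2 a := by
        intro a
        have a1 : (x (t + T + T)).2 a = w * conj ((x (t + T)).2 a) := (h (t + T) a).2
        have a2 : (x (t + T)).2 a = w * conj ((x t).2 a) := (h t a).2
        rw [e, a1, a2, map_mul, Complex.conj_conj]
        linear_combination (x t).2 a * hww
      rw [one_smul]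
      exact Prod.ext (funext k1) (funext k2)
    · refine caseP 0 (Eventually.of_forall fun t => ?_)
      obtain ⟨b, hb⟩ := exists_ne_zero hn (hx.mem t)
      refine ⟨W t * conj ((x t).1 b) / (x t).1 b, ?_, fun a => ?_⟩
      · rw [norm_div, norm_mul, hWn t, Complex.norm_conj, one_mul]
        exact div_self (norm_ne_zero_iff.2 hb)
      · rw [hN t a]
        have h1 := h t a b
        have h2 : conj ((x t).1 a) * (x t).1 b = (x t).1 a * conj ((x t).1 b) := by
          have h3 : conj (conj ((x t).1 a) * (x t).1 b) = conj ((x t).1 a) * (x t).1 b :=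
            Complex.conj_eq_iff_im.2 h1
          rw [map_mul, Complex.conj_conj] at h3
          exact h3.symm
        have key : ∀ ω : ℂ, ω * conj ((x t).1 a) = ω * conj ((x t).1 b) / (x t).1 b * (x t).1 a := by
          intro ω
          rw [div_mul_eq_mul_div, eq_div_iff hb]
          linear_combination ω * h2
        exact key (W t)

end Pool.Agent.W821.TB
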